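import Pool.Agent.Lib.MP_9fc97b_un.NDef

/-!
# UL, N-side, row NB1
-/

set_option autoImplicit false
set_option linter.unusedSectionVars false

open Cardinal Set Order

namespace Pool.UL

open Pool.PC Pool.MP_3ade05_lc

variable {Ω : Type} [LinearOrder Ω] [WellFoundedLT Ω] {X Θ : Type} [D : PE Ω X Θ]

/-- Elements of the value of a relation name. -/
private lemma NB1_mem_val_relN {P : Type 1} [Preorder P] {U : Set (Name P)} {H : Set P}
    (hB : Base U H)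
    {I J : Type} {d : I → Name P} {v : J → Name P} {R : P → I → J → Prop}
    {hR : ∀ q q' i j, q' ≤ q → R q i j → R q' i j} {z : ZFSet.{0}}
    (hpart : ∀ i j, oN (d i) (v j) ∈ U → d i ∈ U ∧ v j ∈ U)
    (hz : z ∈ Name.val U H (relN d v R hR)) :
    ∃ i j, d i ∈ U ∧ v j ∈ U ∧ (∃ q ∈ H, R q i j) ∧
      z = ZFSet.pair (Name.val U H (d i)) (Name.val U H (v j)) := by
  obtain ⟨k, h1, ⟨q, hq, h2⟩, h3⟩ := Name.mem_val.1 hz
  obtain ⟨h4, h5⟩ := hpart k.1 k.2 h1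
  refine ⟨k.1, k.2, h4, h5, ⟨q, hq, h2⟩, ?_⟩
  rw [h3]
  exact val_oN hB h4 h5

/-- Row NB1: the sequence of the `t_n`.  Use `pair_mem_val_relN`, `GB.parts`, `GB.exists_len`,
`Pts.eq`; `tFN ∈ U` by `Ev.op` (`n = 0`), the value by `GB.t_mem`. -/
theorem Ev.tFN_char : Ev (P := PP Ω X Θ) (fun U H => ∀ K, GB U H K →
    Name.val U H (tFN Ω X Θ) ∈ MM U H ∧ FunOn (Name.val U H (tFN Ω X Θ)) ZFSet.omega ∧
    ∀ n, ZFSet.pair (num n) (tN X Θ U H K n) ∈ Name.val U H (tFN Ω X Θ)) := by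
  refine (Ev.op (P := PP Ω X Θ) (n := 0) (fun _ => tFN Ω X Θ)).mono ?_
  intro U H h1 K hB
  have hb : Base U H := hB.toBase
  have hF : tFN Ω X Θ ∈ U := h1 Fin.elim0 (fun i => i.elim0)
  have hp : ∀ x y : ZFSet.{0}, ZFSet.pair x y ∈ Name.val U H (tFN Ω X Θ) ↔
      ∃ n : ℕ, x = num n ∧ y = tN X Θ U H K n := by
    intro x y
    rw [tFN, pair_mem_val_relN hb (fun i j h => hB.parts _ _ h)]
    constructor
    · rintro ⟨i, j, _, h6, ⟨q, hq, h7, h7'⟩, h8, h9⟩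
      refine ⟨i, by rw [h8, val_ordN_nat hb], ?_⟩
      rw [h9, h7', hB.pts.eq hb.filt hq h7]
      rfl
    · rintro ⟨n, rfl, rfl⟩
      obtain ⟨q, hq, h2, h3⟩ := hB.exists_len n
      exact ⟨n, PE.T X Θ (K n), hb.nat n, hB.t_mem n, ⟨q, hq, h2, by rw [h3 n le_rfl]⟩,
        by rw [val_ordN_nat hb], rfl⟩
  refine ⟨⟨_, mem_univ _, hF, rfl⟩, ⟨?_, ?_⟩, fun n => (hp _ _).2 ⟨n, rfl, rfl⟩⟩
  · intro z hz
    have hz' := hz
    rw [tFN] at hz'
    obtain ⟨i, j, _, h6, _, h8⟩ := NB1_mem_val_relN hb (fun i j h => hB.parts _ _ h) hz'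
    refine ⟨num i, mem_omega_iff.2 ⟨i, rfl⟩, Name.val U H (ordN _ (oo j)), ?_⟩
    rw [h8, val_ordN_nat hb]
  · intro x hx
    obtain ⟨n, rfl⟩ := mem_omega_iff.1 hx
    refine ⟨tN X Θ U H K n, (hp _ _).2 ⟨n, rfl, rfl⟩, fun y hy => ?_⟩
    obtain ⟨m, h2, h3⟩ := (hp _ _).1 hy
    have hm : n = m := num_injective hb h2
    subst hm
    exact h3

end Pool.UL
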