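import Pool.Agent.Lib.MP_9fc97b_un.NDef

/-!
# UL, N-side, row NB2
-/

set_option autoImplicit false
set_option linter.unusedSectionVars false

open Cardinal Set Order

namespace Pool.UL

open Pool.PC Pool.MP_3ade05_lc

variable {Ω : Type} [LinearOrder Ω] [WellFoundedLT Ω] {X Θ : Type} [D : PE Ω X Θ]

/-- Row NB2: the set `X`. -/
theorem Ev.XN_char : Ev (P := PP Ω X Θ) (fun U H => ∀ K, GB U H K →
    Name.val U H (XN Ω X Θ) ∈ MM U H ∧
    ∀ (n : ℕ) (ξ a : Ω), ordN _ (oo ξ) ∈ U → ordN _ (oo a) ∈ U →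
      (ZFSet.pair (num n) (ZFSet.pair (Name.val U H (ordN _ (oo ξ))) (Name.val U H (ordN _ (oo a)))) ∈
        Name.val U H (XN Ω X Θ) ↔
        ∃ q ∈ H, n + 1 < q.down.len ∧ q.down.cc (n + 1) (ξ, a) = some true)) := by
  refine (Ev.op (n := 0) (fun _ => XN Ω X Θ)).mono ?_
  intro U H hXU K hB
  have hX : XN Ω X Θ ∈ U := hXU Fin.elim0 (fun i => i.elim0)
  have hb := hB.toBase
  refine ⟨⟨_, Set.mem_univ _, hX, rfl⟩, ?_⟩
  intro n ξ a hξ ha
  have hpm := fun (x y : ZFSet.{0}) => pair_mem_val_relN (x := x) (y := y) hb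
    (d := fun n : ℕ => ordN (PP Ω X Θ) (n : Ordinal.{0}))
    (v := fun z : Ω × Ω => oN (ordN _ (oo z.1)) (ordN _ (oo z.2)))
    (R := fun (q : PP Ω X Θ) n z => n + 1 < q.down.len ∧ q.down.cc (n + 1) z = some true)
    (hR := fun q q' n z hq h => by
      have hq' : q'.down ≤ q.down := hq
      exact ⟨h.1.trans_le (Cond.len_le hq'), Cond.cc_sub hq' h.1 _ _ h.2⟩)
    (fun i j h => hB.parts _ _ h)
  have h1 := hpm (num n) (ZFSet.pair (Name.val U H (ordN _ (oo ξ))) (Name.val U H (ordN _ (oo a))))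
  refine h1.trans ?_
  constructor
  · rintro ⟨i, ⟨ξ', a'⟩, hi, hj, ⟨q, hq, h2, h3⟩, e1, e2⟩
    rw [val_ordN_nat hb] at e1
    have e3 : n = i := num_injective hb e1
    obtain ⟨hξ', ha'⟩ := hB.parts _ _ hj
    rw [val_oN hb hξ' ha'] at e2
    obtain ⟨e4, e5⟩ := ZFSet.pair_injective e2
    have e6 := oo_injective ((val_ordN_inj hb hξ hξ').1 e4)
    have e7 := oo_injective ((val_ordN_inj hb ha ha').1 e5)
    subst e3
    subst e6
    subst e7
    exact ⟨q, hq, h2, h3⟩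
  · rintro ⟨q, hq, h2, h3⟩
    exact ⟨n, (ξ, a), hb.nat n, oN_mem hb hξ ha, ⟨q, hq, h2, h3⟩, (val_ordN_nat hb n).symm,
      (val_oN hb hξ ha).symm⟩

end Pool.UL
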