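import Pool.Agent.Lib.MP_9fc97b_un.NDef

/-!
# UL, N-side, row NB3
-/

set_option autoImplicit false
set_option linter.unusedSectionVars false

open Cardinal Set Order

namespace Pool.UL

open Pool.PC Pool.MP_3ade05_lc

variable {Ω : Type} [LinearOrder Ω] [WellFoundedLT Ω] {X Θ : Type} [D : PE Ω X Θ]

/-- Row NB3: the functions `e_s`. -/
theorem Ev.eN_char : Ev (P := PP Ω X Θ) (fun U H => ∀ K, GB U H K →
    Name.val U H (eN Ω X Θ) ∈ MM U H ∧ ∀ s : Θ, ordN _ (sO s) ∈ U → ∀ n : ℕ,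
      (∀ y, ZFSet.pair (ZFSet.pair (Name.val U H (ordN _ (sO s))) (num n)) y ∈
        Name.val U H (eN Ω X Θ) ↔
        ∃ ξ : Ω, ordN _ (oo ξ) ∈ U ∧ y = Name.val U H (ordN _ (oo ξ)) ∧ ∃ q ∈ H, eR s q.down n ξ) ∧
      ∃ ξ : Ω, ordN _ (oo ξ) ∈ U ∧ ∃ q ∈ H, eR s q.down n ξ) := by
  have h1 : Ev (P := PP Ω X Θ) (fun U _ => ∀ v : Fin 0 → Name (PP Ω X Θ),
      (∀ i, v i ∈ U) → eN Ω X Θ ∈ U) := Ev.op (fun _ => eN Ω X Θ)
  have h2 := Ev.ogen2 (P := PP Ω X Θ) (fun α β q ξ => ∃ (s : Θ) (n : ℕ) (a : Ω), sO s = α ∧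
    (n : Ordinal.{0}) = β ∧ ξ = oo a ∧ eR s q.down n a)
  refine (h1.and h2).mono ?_
  rintro U H ⟨hop, hgen⟩ K hG
  have hB : Base U H := hG.toBase
  have hU : eN Ω X Θ ∈ U := hop Fin.elim0 (fun i => i.elim0)
  refine ⟨⟨eN Ω X Θ, mem_univ _, hU, rfl⟩, fun s hs n => ⟨fun y => ?_, ?_⟩⟩
  · have key : ∀ x : ZFSet.{0}, ZFSet.pair x y ∈ Name.val U H (eN Ω X Θ) ↔
        ∃ (i : Θ × ℕ) (j : Ω), oN (ordN (PP Ω X Θ) (sO i.1)) (ordN _ (i.2 : Ordinal.{0})) ∈ U ∧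
          ordN (PP Ω X Θ) (oo j) ∈ U ∧ (∃ q ∈ H, eR i.1 q.down i.2 j) ∧
          x = Name.val U H (oN (ordN _ (sO i.1)) (ordN _ (i.2 : Ordinal.{0}))) ∧
          y = Name.val U H (ordN _ (oo j)) := by
      intro x
      unfold eN
      exact pair_mem_val_relN hB (fun i j h => hG.parts _ _ h)
    rw [key]
    constructor
    · rintro ⟨⟨s', n'⟩, ξ, hd, hξ, hq, e1, e2⟩
      obtain ⟨hs', hn'⟩ := hG.parts _ _ hd
      rw [val_oN hB hs' hn'] at e1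
      obtain ⟨e3, e4⟩ := ZFSet.pair_injective e1
      have e5 : s = s' := sO_injective ((val_ordN_inj hB hs hs').1 e3)
      rw [val_ordN_nat hB] at e4
      have e6 : n = n' := num_injective hB e4
      subst e5 e6
      exact ⟨ξ, hξ, e2, hq⟩
    · rintro ⟨ξ, hξ, e2, hq⟩
      refine ⟨(s, n), ξ, oN_mem hB hs (hB.nat n), hξ, hq, ?_, e2⟩
      rw [val_oN hB hs (hB.nat n), val_ordN_nat hB]
  · rcases hgen (sO s) (n : Ordinal.{0}) hs (hB.nat n) with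
      ⟨q, hq, ξ, hξ, s', n', a, e1, e2, rfl, h⟩ | ⟨p, hp, h⟩
    · have e3 : s' = s := sO_injective e1
      have e4 : n' = n := by exact_mod_cast e2
      subst e3 e4
      exact ⟨a, hξ, q, hq, h⟩
    · exfalso
      obtain ⟨q, hq, ξ, hqξ⟩ := eR.dense s p.down n
      exact h (ULift.up q) hq (oo ξ) ⟨s, n, ξ, rfl, rfl, rfl, hqξ⟩

end Pool.UL
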