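import Pool.Agent.Lib.MP_9fc97b_un.NDef

/-!
# UL, N-side, row NC1
-/

set_option autoImplicit false
set_option linter.unusedSectionVars false

open Cardinal Set Order

namespace Pool.UL

open Pool.PC Pool.MP_3ade05_lc

variable {P : Type 1} [Preorder P]

lemma NC1_A (α : Ordinal.{0}) (F : Ordinal.{0} → Ordinal.{0}) (k : (gfN P α F).ι) :
    ∃ β < α, (gfN P α F).A k = oN (ordN P β) (ordN P (F β)) := by
  have k' : α.ToType := k
  refine ⟨(Ordinal.ToType.toOrd (k : α.ToType)).1, (Ordinal.ToType.toOrd (k : α.ToType)).2, rfl⟩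

lemma NC1_k (α : Ordinal.{0}) (F : Ordinal.{0} → Ordinal.{0}) {β : Ordinal.{0}} (hβ : β < α) :
    ∃ k : (gfN P α F).ι, (gfN P α F).A k = oN (ordN P β) (ordN P (F β)) := by
  have h1 : (Ordinal.ToType.toOrd (Ordinal.ToType.mk ⟨β, hβ⟩ : α.ToType)).1 = β := by
    simp [Ordinal.ToType.toOrd]
  refine ⟨(Ordinal.ToType.mk ⟨β, hβ⟩ : α.ToType), ?_⟩
  show oN (ordN P (Ordinal.ToType.toOrd (Ordinal.ToType.mk ⟨β, hβ⟩ : α.ToType)).1)
    (ordN P (F (Ordinal.ToType.toOrd (Ordinal.ToType.mk ⟨β, hβ⟩ : α.ToType)).1)) = _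
  rw [h1]

lemma NC1_mem {U : Set (Name P)} {H : Set P} (hH : H.Nonempty) (α : Ordinal.{0})
    (F : Ordinal.{0} → Ordinal.{0}) (x : ZFSet.{0}) :
    x ∈ Name.val U H (gfN P α F) ↔ ∃ β < α, oN (ordN P β) (ordN P (F β)) ∈ U ∧
      x = Name.val U H (oN (ordN P β) (ordN P (F β))) := by
  obtain ⟨q, hq⟩ := hH
  rw [Name.mem_val]
  constructor
  · rintro ⟨k, hk, -, e⟩
    obtain ⟨β, hβ, h1⟩ := NC1_A α F k
    rw [h1] at hk e
    exact ⟨β, hβ, hk, e⟩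
  · rintro ⟨β, hβ, hU, e⟩
    obtain ⟨k, hk⟩ := NC1_k (P := P) α F hβ
    refine ⟨k, ?_, ⟨q, hq, trivial⟩, ?_⟩
    · rw [hk]
      exact hU
    · rw [hk]
      exact e

/-- Row NC1: names of ground model functions. -/
theorem Ev.gfN_char : Ev (P := P) (fun U H => ∀ (α : Ordinal.{0}) (F : Ordinal.{0} → Ordinal.{0}),
    gfN P α F ∈ U →
      Name.val U H (gfN P α F) ∈ MM U H ∧
      FunOn (Name.val U H (gfN P α F)) (Name.val U H (ordN P α)) ∧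
      (∀ β < α, ordN P β ∈ U → ordN P (F β) ∈ U) ∧
      (∀ γ, ordN P γ ∈ U → (∃ β < α, F β = γ) → ∃ β < α, ordN P β ∈ U ∧ F β = γ) ∧
      ∀ x y, ZFSet.pair x y ∈ Name.val U H (gfN P α F) ↔ ∃ β < α, ordN P β ∈ U ∧
        ordN P (F β) ∈ U ∧ x = Name.val U H (ordN P β) ∧ y = Name.val U H (ordN P (F β))) := by
  have h1 := Ev.gen (P := P) (n := 2) (fun v _ ρ => ∃ k : (v 0).ι, ρ = (v 0).A k ∧
    ∃ z, ρ = oN (v 1) z)
  have h2 := Ev.gen (P := P) (n := 2) (fun v _ ρ => ∃ k : (v 0).ι, ρ = (v 0).A k ∧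
    ∃ z, ρ = oN z (v 1))
  refine ((Ev.base (P := P)).and ((Ev.parts (P := P)).and (h1.and h2))).mono ?_
  rintro U H ⟨hB, hparts, hg1, hg2⟩ α F hU
  have hH := hB.filt.ne
  have h3 : ∀ β < α, ordN P β ∈ U → ordN P (F β) ∈ U := by
    intro β hβ hβU
    have hv : ∀ i, (![gfN P α F, ordN P β] : Fin 2 → Name P) i ∈ U := by
      intro i
      fin_cases i
      · exact hU
      · exact hβU
    rcases hg1 _ hv with ⟨q, hq, ρ, hρ, k, e1, z, e2⟩ | ⟨p, hp, hno⟩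
    · obtain ⟨β', hβ', e3⟩ := NC1_A α F k
      have e4 : ρ = oN (ordN P β') (ordN P (F β')) := e1.trans e3
      have e5 : oN (ordN P β') (ordN P (F β')) = oN (ordN P β) z := e4.symm.trans e2
      have e6 : β' = β := ordN_injective (oN_injective e5).1
      rw [e4, e6] at hρ
      exact (hparts _ _ hρ).2
    · exfalso
      obtain ⟨k, hk⟩ := NC1_k (P := P) α F hβ
      exact hno p le_rfl (oN (ordN P β) (ordN P (F β))) ⟨k, hk.symm, _, rfl⟩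
  have h4 : ∀ γ, ordN P γ ∈ U → (∃ β < α, F β = γ) → ∃ β < α, ordN P β ∈ U ∧ F β = γ := by
    rintro γ hγU ⟨β, hβ, hFβ⟩
    have hv : ∀ i, (![gfN P α F, ordN P γ] : Fin 2 → Name P) i ∈ U := by
      intro i
      fin_cases i
      · exact hU
      · exact hγU
    rcases hg2 _ hv with ⟨q, hq, ρ, hρ, k, e1, z, e2⟩ | ⟨p, hp, hno⟩
    · obtain ⟨β', hβ', e3⟩ := NC1_A α F k
      have e4 : ρ = oN (ordN P β') (ordN P (F β')) := e1.trans e3
      have e5 : oN (ordN P β') (ordN P (F β')) = oN z (ordN P γ) := e4.symm.trans e2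
      have e6 : F β' = γ := ordN_injective (oN_injective e5).2
      rw [e4] at hρ
      exact ⟨β', hβ', (hparts _ _ hρ).1, e6⟩
    · exfalso
      obtain ⟨k, hk⟩ := NC1_k (P := P) α F hβ
      refine hno p le_rfl (oN (ordN P β) (ordN P (F β))) ⟨k, hk.symm, ordN P β, ?_⟩
      rw [hFβ]
      rfl
  have h5 : ∀ x y, ZFSet.pair x y ∈ Name.val U H (gfN P α F) ↔ ∃ β < α, ordN P β ∈ U ∧
      ordN P (F β) ∈ U ∧ x = Name.val U H (ordN P β) ∧ y = Name.val U H (ordN P (F β)) := by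
    intro x y
    rw [NC1_mem hH]
    constructor
    · rintro ⟨β, hβ, hβU, e⟩
      obtain ⟨e1, e2⟩ := hparts _ _ hβU
      rw [val_oN hB e1 e2] at e
      obtain ⟨e3, e4⟩ := ZFSet.pair_injective e
      exact ⟨β, hβ, e1, e2, e3, e4⟩
    · rintro ⟨β, hβ, e1, e2, rfl, rfl⟩
      exact ⟨β, hβ, oN_mem hB e1 e2, (val_oN hB e1 e2).symm⟩
  refine ⟨⟨gfN P α F, mem_univ _, hU, rfl⟩, ⟨?_, ?_⟩, h3, h4, h5⟩
  · intro z hz
    obtain ⟨β, hβ, hβU, e⟩ := (NC1_mem hH α F z).1 hz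
    obtain ⟨e1, e2⟩ := hparts _ _ hβU
    rw [val_oN hB e1 e2] at e
    exact ⟨_, (mem_val_ordN hB).2 ⟨β, hβ, e1, rfl⟩, _, e⟩
  · intro x hx
    obtain ⟨β, hβ, hβU, rfl⟩ := (mem_val_ordN hB).1 hx
    refine ⟨Name.val U H (ordN P (F β)), (h5 _ _).2 ⟨β, hβ, hβU, h3 β hβ hβU, rfl, rfl⟩, ?_⟩
    intro y' hy'
    obtain ⟨β', hβ', e1, e2, e3, e4⟩ := (h5 _ _).1 hy'
    have e5 : β = β' := (val_ordN_inj hB hβU e1).1 e3
    subst e5
    exact e4

end Pool.UL
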