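import Pool.Agent.Lib.MP_9fc97b_un.NDef

/-!
# UL, N-side, row NC2
-/

set_option autoImplicit false
set_option linter.unusedSectionVars false

open Cardinal Set Order

namespace Pool.UL

open Pool.PC Pool.MP_3ade05_lc

variable {P : Type 1} [Preorder P]

/-- Row NC2: a pairing function of an infinite ordinal. -/
lemma NC2_exists (α : Ordinal.{0}) : ∃ (g₁ g₂ : Ordinal.{0} → Ordinal.{0})
    (h : Ordinal.{0} → Ordinal.{0} → Ordinal.{0}), Ordinal.omega0 ≤ α →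
      (∀ a < α, g₁ a < α ∧ g₂ a < α) ∧
      ∀ b < α, ∀ c < α, h b c < α ∧ g₁ (h b c) = b ∧ g₂ (h b c) = c := by
  classical
  by_cases hα : Ordinal.omega0 ≤ α
  swap
  · exact ⟨id, id, fun a _ => a, fun h => absurd h hα⟩
  have h1 : ℵ₀ ≤ #α.ToType := by
    rw [mk_toType]
    exact Ordinal.aleph0_le_card.2 hα
  have h2 : #α.ToType = #(α.ToType × α.ToType) := by
    rw [mk_prod, Cardinal.lift_id]
    exact (mul_eq_self h1).symm
  obtain ⟨e⟩ := Cardinal.eq.1 h2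
  let g : Ordinal.{0} → Ordinal.{0} × Ordinal.{0} := fun a => if ha : a < α then
    ((Ordinal.ToType.toOrd (e (Ordinal.ToType.mk ⟨a, ha⟩)).1).1,
      (Ordinal.ToType.toOrd (e (Ordinal.ToType.mk ⟨a, ha⟩)).2).1) else (0, 0)
  refine ⟨fun a => (g a).1, fun a => (g a).2, fun b c => if hb : b < α then
    (if hc : c < α then (Ordinal.ToType.toOrd (e.symm (Ordinal.ToType.mk ⟨b, hb⟩,
      Ordinal.ToType.mk ⟨c, hc⟩))).1 else 0) else 0, fun _ => ⟨?_, ?_⟩⟩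
  · intro a ha
    simp only [g, dif_pos ha]
    exact ⟨(Ordinal.ToType.toOrd _).2, (Ordinal.ToType.toOrd _).2⟩
  · intro b hb c hc
    simp only [dif_pos hb, dif_pos hc]
    have h3 : (Ordinal.ToType.toOrd (e.symm (Ordinal.ToType.mk ⟨b, hb⟩,
      Ordinal.ToType.mk ⟨c, hc⟩))).1 < α := (Ordinal.ToType.toOrd _).2
    refine ⟨h3, ?_⟩
    have h4 : Ordinal.ToType.mk ⟨(Ordinal.ToType.toOrd (e.symm (Ordinal.ToType.mk ⟨b, hb⟩,
      Ordinal.ToType.mk ⟨c, hc⟩))).1, h3⟩ = e.symm (Ordinal.ToType.mk ⟨b, hb⟩,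
      Ordinal.ToType.mk ⟨c, hc⟩) := Ordinal.ToType.mk.apply_symm_apply _
    simp only [g, dif_pos h3]
    rw [h4, Equiv.apply_symm_apply]
    exact ⟨congrArg Subtype.val (Ordinal.ToType.mk.symm_apply_apply _),
      congrArg Subtype.val (Ordinal.ToType.mk.symm_apply_apply _)⟩

/-- Row NC2: squares of infinite ordinals. -/
theorem Ev.ground_sq : Ev (P := P) (fun U H => ∀ α : Ordinal.{0}, ordN P α ∈ U →
    Ordinal.omega0 ≤ α → Sq (MM U H) (Name.val U H (ordN P α))) := by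
  classical
  choose g₁ g₂ g hg using NC2_exists
  let nm : Ordinal.{0} → Ordinal.{0} → Name P := fun α _ =>
    relN (I := α.ToType) (J := α.ToType × α.ToType) (fun i => ordN P (Ordinal.ToType.toOrd i).1)
      (fun z => oN (ordN P (Ordinal.ToType.toOrd z.1).1) (ordN P (Ordinal.ToType.toOrd z.2).1))
      (fun _ i z => g₁ α (Ordinal.ToType.toOrd i).1 = (Ordinal.ToType.toOrd z.1).1 ∧
        g₂ α (Ordinal.ToType.toOrd i).1 = (Ordinal.ToType.toOrd z.2).1)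
      (fun _ _ _ _ _ h => h)
  have hEv := ((Ev.base (P := P)).and (Ev.parts (P := P))).and ((Ev.nm2 nm).and
    (((Ev.ord2 (P := P) g₁).and (Ev.ord2 (P := P) g₂)).and (Ev.ord3 (P := P) g)))
  refine hEv.mono ?_
  rintro U H ⟨⟨hB, hparts⟩, hnm, ⟨hc₁, hc₂⟩, hc₃⟩ α hα hω
  obtain ⟨h1, h2⟩ := hg α hω
  have hf : nm α α ∈ U := hnm α α hα hα
  have hpair : ∀ x y : ZFSet.{0}, ZFSet.pair x y ∈ Name.val U H (nm α α) ↔
      ∃ a < α, ordN P a ∈ U ∧ x = Name.val U H (ordN P a) ∧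
        y = ZFSet.pair (Name.val U H (ordN P (g₁ α a))) (Name.val U H (ordN P (g₂ α a))) := by
    intro x y
    rw [pair_mem_val_relN hB (fun i j h => hparts _ _ h)]
    constructor
    · rintro ⟨i, z, h3, h4, ⟨q, hq, h5, h6⟩, h7, h8⟩
      obtain ⟨h9, h10⟩ := hparts _ _ h4
      refine ⟨_, (Ordinal.ToType.toOrd i).2, h3, h7, ?_⟩
      rw [h8, h5, h6]
      exact val_oN hB h9 h10
    · rintro ⟨a, ha, h3, h4, h5⟩
      obtain ⟨q, hq⟩ := hB.filt.ne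
      have hb := (h1 a ha).1
      have hc := (h1 a ha).2
      have e1 : (Ordinal.ToType.toOrd (Ordinal.ToType.mk ⟨a, ha⟩)).1 = a := by simp
      have e2 : (Ordinal.ToType.toOrd (Ordinal.ToType.mk ⟨g₁ α a, hb⟩)).1 = g₁ α a := by simp
      have e3 : (Ordinal.ToType.toOrd (Ordinal.ToType.mk ⟨g₂ α a, hc⟩)).1 = g₂ α a := by simp
      have hbU : ordN P (g₁ α a) ∈ U := hc₁ α a hα h3
      have hcU : ordN P (g₂ α a) ∈ U := hc₂ α a hα h3
      refine ⟨Ordinal.ToType.mk ⟨a, ha⟩, (Ordinal.ToType.mk ⟨g₁ α a, hb⟩,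
        Ordinal.ToType.mk ⟨g₂ α a, hc⟩), ?_, ?_, ⟨q, hq, ?_⟩, ?_, ?_⟩
      · rw [e1]
        exact h3
      · simp only [e2, e3]
        exact oN_mem hB hbU hcU
      · simp only [e1, e2, e3, and_self]
      · rw [e1]
        exact h4
      · simp only [e2, e3]
        rw [h5]
        exact (val_oN hB hbU hcU).symm
  refine ⟨Name.val U H (nm α α), ⟨nm α α, mem_univ _, hf, rfl⟩, ⟨?_, ?_⟩, ?_⟩
  · intro z hz
    obtain ⟨k, hk, -, rfl⟩ := Name.mem_val.1 hz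
    obtain ⟨h3, h4⟩ := hparts _ _ hk
    exact ⟨_, (mem_val_ordN hB).2 ⟨_, (Ordinal.ToType.toOrd k.1).2, h3, rfl⟩, _,
      val_oN hB h3 h4⟩
  · intro x hx
    obtain ⟨a, ha, haU, rfl⟩ := (mem_val_ordN hB).1 hx
    refine ⟨_, (hpair _ _).2 ⟨a, ha, haU, rfl, rfl⟩, ?_⟩
    intro y' hy'
    obtain ⟨a', ha', haU', e1, e2⟩ := (hpair _ _).1 hy'
    have h3 : a = a' := (val_ordN_inj hB haU haU').1 e1
    subst h3
    exact e2
  · intro y hy z hz
    obtain ⟨b, hb, hbU, rfl⟩ := (mem_val_ordN hB).1 hy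
    obtain ⟨c, hc, hcU, rfl⟩ := (mem_val_ordN hB).1 hz
    obtain ⟨h3, h4, h5⟩ := h2 b hb c hc
    have haU : ordN P (g α b c) ∈ U := hc₃ α b c hα hbU hcU
    refine ⟨Name.val U H (ordN P (g α b c)), (mem_val_ordN hB).2 ⟨_, h3, haU, rfl⟩,
      (hpair _ _).2 ⟨_, h3, haU, rfl, ?_⟩⟩
    rw [h4, h5]

end Pool.UL
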