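import Pool.Agent.Lib.MP_9fc97b_un.NDef

/-!
# UL, N-side, row ND1
-/

set_option autoImplicit false
set_option linter.unusedSectionVars false

open Cardinal Set Order

namespace Pool.UL

open Pool.PC Pool.MP_3ade05_lc

variable {P : Type 1} [Preorder P]

namespace ND1

section
variable {C : Type} (κo : Ordinal.{0}) (T : C → P → Ordinal.{0} → Prop)
  (hT : ∀ z q q' a, q' ≤ q → T z q a → T z q' a)
  (Dx : P → Ordinal.{0} → C → Prop) (hD : ∀ q q' i z, q' ≤ q → Dx q i z → Dx q' i z)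

/-- The name of the set coded by `z`. -/
noncomputable def vN (z : C) : Name P :=
  Name.mk κo.ToType (fun i => ordN P (Ordinal.ToType.toOrd i).1)
    (fun i => ⟨{q | T z q (Ordinal.ToType.toOrd i).1}, fun a b hab h => hT z a b _ hab h⟩)

/-- The name of the enumeration of the coded sets. -/
noncomputable def fN (β : Ordinal.{0}) : Name P :=
  relN (I := β.ToType) (J := C) (fun i => ordN P (Ordinal.ToType.toOrd i).1)
    (fun z => vN κo T hT z) (fun q i z => Dx q (Ordinal.ToType.toOrd i).1 z)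
    (fun q q' i z hq h => hD q q' _ z hq h)

end

lemma mem_val_vN {C : Type} {κo : Ordinal.{0}} {T : C → P → Ordinal.{0} → Prop}
    {hT : ∀ z q q' a, q' ≤ q → T z q a → T z q' a} {U : Set (Name P)} {H : Set P} {z : C}
    {x : ZFSet.{0}} : x ∈ Name.val U H (vN κo T hT z) ↔
      ∃ a < κo, ordN P a ∈ U ∧ (∃ q ∈ H, T z q a) ∧ x = Name.val U H (ordN P a) := by
  rw [Name.mem_val]
  constructor
  · rintro ⟨k, h1, ⟨q, hq, h2⟩, h3⟩
    exact ⟨(Ordinal.ToType.toOrd k).1, (Ordinal.ToType.toOrd k).2, h1, ⟨q, hq, h2⟩, h3⟩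
  · rintro ⟨a, ha, h1, ⟨q, hq, h2⟩, h3⟩
    have e : (Ordinal.ToType.toOrd (Ordinal.ToType.mk ⟨a, ha⟩)).1 = a := by simp
    refine ⟨Ordinal.ToType.mk ⟨a, ha⟩, ?_, ⟨q, hq, ?_⟩, ?_⟩
    · show ordN P (Ordinal.ToType.toOrd (Ordinal.ToType.mk ⟨a, ha⟩ : κo.ToType)).1 ∈ U
      rw [e]; exact h1
    · show T z q (Ordinal.ToType.toOrd (Ordinal.ToType.mk ⟨a, ha⟩ : κo.ToType)).1
      rw [e]; exact h2
    · show x = Name.val U H
        (ordN P (Ordinal.ToType.toOrd (Ordinal.ToType.mk ⟨a, ha⟩ : κo.ToType)).1)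
      rw [e]; exact h3

/-- Elements of the value of a relation name. -/
lemma mem_val_relN {U : Set (Name P)} {H : Set P} (hB : Base U H)
    {I J : Type} {d : I → Name P} {v : J → Name P} {R : P → I → J → Prop}
    {hR : ∀ q q' i j, q' ≤ q → R q i j → R q' i j} {z : ZFSet.{0}}
    (hpart : ∀ i j, oN (d i) (v j) ∈ U → d i ∈ U ∧ v j ∈ U)
    (hz : z ∈ Name.val U H (relN d v R hR)) :
    ∃ i j, d i ∈ U ∧ v j ∈ U ∧ (∃ q ∈ H, R q i j) ∧
      z = ZFSet.pair (Name.val U H (d i)) (Name.val U H (v j)) := by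
  obtain ⟨k, h1, ⟨q, hq, h2⟩, h3⟩ := Name.mem_val.1 hz
  obtain ⟨h4, h5⟩ := hpart k.1 k.2 h1
  refine ⟨k.1, k.2, h4, h5, ⟨q, hq, h2⟩, ?_⟩
  rw [h3]
  exact val_oN hB h4 h5

lemma forall3 {U : Set (Name P)} {σ τ ρ : Name P} (hσ : σ ∈ U) (hτ : τ ∈ U) (hρ : ρ ∈ U) :
    ∀ i, (![σ, τ, ρ] : Fin 3 → Name P) i ∈ U := by
  intro i
  fin_cases i
  · exact hσ
  · exact hτ
  · exact hρ

end ND1

/-- Row ND1: coding of subsets.  `T z q a` = `q` forces that `a` is in the set coded by `z`,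
`Dx q i z` = `q` decides that the code with index `i` is `z`. -/
theorem Ev.powLe {C : Type} (κo : Ordinal.{0}) (T : C → P → Ordinal.{0} → Prop)
    (hT : ∀ z q q' a, q' ≤ q → T z q a → T z q' a)
    (Dx : P → Ordinal.{0} → C → Prop) (hD : ∀ q q' i z, q' ≤ q → Dx q i z → Dx q' i z)
    (hDu : ∀ q i z z', Dx q i z → Dx q i z' → z = z') :
    Ev (P := P) (fun U H => ∀ α β : Ordinal.{0}, ordN P α ∈ U → ordN P β ∈ U → α ≤ κo →
      (∃ p ∈ H, (∀ i < β, ∀ q ≤ p, ∃ r ≤ q, ∃ z, Dx r i z) ∧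
        (∀ i < β, ∀ z, ∀ q ≤ p, Dx q i z → ∀ a, T z q a → a < α) ∧
        (∀ q ≤ p, ∀ R : P → Ordinal.{0} → Prop, (∀ q q' a, q' ≤ q → R q a → R q' a) →
          ∃ r ≤ q, ∃ i < β, ∃ z, Dx r i z ∧ ∀ a < α, ∀ r' ≤ r,
            (T z r' a → ∃ r'' ≤ r', R r'' a) ∧ (R r' a → ∃ r'' ≤ r', T z r'' a))) →
      PowLe (MM U H) (Name.val U H (ordN P α)) (Name.val U H (ordN P β))) := by
  classical
  have e1 := Ev.nm2 (P := P) (fun _ β => ND1.fN κo T hT Dx hD β)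
  have e2 := Ev.gen (P := P) (n := 1) (fun v q ρ => ∃ i : Ordinal.{0}, v 0 = ordN P i ∧
    ∃ z, ρ = ND1.vN κo T hT z ∧ Dx q i z)
  have e3 := Ev.ogen (P := P) (n := 3) (fun v q i => ∃ α β : Ordinal.{0}, v 1 = ordN P α ∧
    v 2 = ordN P β ∧ i < β ∧ ∃ z, Dx q i z ∧ ∀ a < α, ∀ r' ≤ q,
      (T z r' a → ∃ r'' ≤ r', Name.fmem (ordN P a) (v 0) r'') ∧
      (Name.fmem (ordN P a) (v 0) r' → ∃ r'' ≤ r', T z r'' a))
  have e4 := Ev.gen' (P := P) (n := 2) (fun v q => ∃ k : (v 1).ι, v 0 = (v 1).A k ∧ q ∈ (v 1).c k)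
  have e5 := Ev.gen' (P := P) (n := 2) (fun v q => Name.fmem (v 0) (v 1) q)
  refine (((((e1.and e2).and e3).and e4).and e5).and ((Ev.base (P := P)).and
    (Ev.parts (P := P)))).mono ?_
  rintro U H ⟨⟨⟨⟨⟨h1, h2⟩, h3⟩, h4⟩, h5⟩, hB, hparts⟩ α β hα hβ hακ ⟨p, hp, hp1, hp2, hp3⟩
  have hF : ND1.fN κo T hT Dx hD β ∈ U := h1 β β hβ hβ
  -- pairs
  have hpair : ∀ x y : ZFSet.{0}, ZFSet.pair x y ∈ Name.val U H (ND1.fN κo T hT Dx hD β) ↔
      ∃ i < β, ∃ z, ordN P i ∈ U ∧ ND1.vN κo T hT z ∈ U ∧ (∃ q ∈ H, Dx q i z) ∧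
        x = Name.val U H (ordN P i) ∧ y = Name.val U H (ND1.vN κo T hT z) := by
    intro x y
    rw [ND1.fN, pair_mem_val_relN hB (fun i j h => hparts _ _ h)]
    constructor
    · rintro ⟨i, z, g1, g2, g3, g4, g5⟩
      exact ⟨_, (Ordinal.ToType.toOrd i).2, z, g1, g2, g3, g4, g5⟩
    · rintro ⟨i, hi, z, g1, g2, ⟨q, hq, g3⟩, g4, g5⟩
      have e : (Ordinal.ToType.toOrd (Ordinal.ToType.mk ⟨i, hi⟩)).1 = i := by simp
      refine ⟨Ordinal.ToType.mk ⟨i, hi⟩, z, ?_, g2, ⟨q, hq, ?_⟩, ?_, g5⟩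
      · rw [e]; exact g1
      · rw [e]; exact g3
      · rw [e]; exact g4
  have huniq : ∀ i z z', (∃ q ∈ H, Dx q i z) → (∃ q ∈ H, Dx q i z') → z = z' := by
    rintro i z z' ⟨q, hq, g⟩ ⟨q', hq', g'⟩
    obtain ⟨r, _, hr1, hr2⟩ := hB.filt.dir q hq q' hq'
    exact hDu r i z z' (hD q r i z hr1 g) (hD q' r i z' hr2 g')
  have hex : ∀ i < β, ordN P i ∈ U → ∃ z, ND1.vN κo T hT z ∈ U ∧ ∃ q ∈ H, Dx q i z := by
    intro i hi hiU
    rcases h2 ![ordN P i] (by intro j; fin_cases j; exact hiU) with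
      ⟨q, hq, ρ, hρ, i', hi', z, rfl, g⟩ | ⟨p', hp', hn⟩
    · have hii : i = i' := ordN_injective (show ordN P i = ordN P i' from hi')
      subst hii
      exact ⟨z, hρ, q, hq, g⟩
    · exfalso
      obtain ⟨r, _, hr1, hr2⟩ := hB.filt.dir p hp p' hp'
      obtain ⟨r', hr', z, g⟩ := hp1 i hi r hr1
      exact hn r' (hr'.trans hr2) _ ⟨i, rfl, z, rfl, g⟩
  refine ⟨_, ⟨_, mem_univ _, hF, rfl⟩, ⟨?_, ?_⟩, ?_⟩
  · intro z hz
    obtain ⟨i, j, g1, _, _, g4⟩ := ND1.mem_val_relN hB (fun i j h => hparts _ _ h) hz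
    exact ⟨_, (mem_val_ordN hB).2 ⟨_, (Ordinal.ToType.toOrd i).2, g1, rfl⟩, _, g4⟩
  · intro x hx
    obtain ⟨i, hi, hiU, rfl⟩ := (mem_val_ordN hB).1 hx
    obtain ⟨z, hz, hq⟩ := hex i hi hiU
    refine ⟨_, (hpair _ _).2 ⟨i, hi, z, hiU, hz, hq, rfl, rfl⟩, fun y hy => ?_⟩
    obtain ⟨i', _, z', hi'U, _, hq', g1, rfl⟩ := (hpair _ _).1 hy
    have hii : i = i' := (val_ordN_inj hB hiU hi'U).1 g1
    subst hii
    rw [huniq i z z' hq hq']
  · rintro y ⟨τ, _, hτ, rfl⟩ hsub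
    -- the code of `τ`
    have hcode : ∃ r ∈ H, ∃ i < β, ordN P i ∈ U ∧ ∃ z, Dx r i z ∧ ∀ a < α, ∀ r' ≤ r,
        (T z r' a → ∃ r'' ≤ r', Name.fmem (ordN P a) τ r'') ∧
        (Name.fmem (ordN P a) τ r' → ∃ r'' ≤ r', T z r'' a) := by
      rcases h3 ![τ, ordN P α, ordN P β] (ND1.forall3 hτ hα hβ) with
        ⟨r, hr, i, hiU, α', β', g1, g2, hi, z, g3, g4⟩ | ⟨p', hp', hn⟩
      · have e1 : α = α' := ordN_injective (show ordN P α = ordN P α' from g1)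
        have e2 : β = β' := ordN_injective (show ordN P β = ordN P β' from g2)
        subst e1 e2
        exact ⟨r, hr, i, hi, hiU, z, g3, g4⟩
      · exfalso
        obtain ⟨r, _, hr1, hr2⟩ := hB.filt.dir p hp p' hp'
        obtain ⟨s, hs, i, hi, z, g1, g2⟩ := hp3 r hr1 (fun q a => Name.fmem (ordN P a) τ q)
          (fun q q' a hq h => Name.fmem_mono h hq)
        exact hn s (hs.trans hr2) i ⟨α, β, rfl, rfl, hi, z, g1, g2⟩
    obtain ⟨r, hr, i, hi, hiU, z, hDz, hz⟩ := hcode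
    obtain ⟨z', hz'U, hz'⟩ := hex i hi hiU
    have hzz : z' = z := huniq i z' z hz' ⟨r, hr, hDz⟩
    subst hzz
    have hval : Name.val U H (ND1.vN κo T hT z') = Name.val U H τ := by
      ext x
      rw [ND1.mem_val_vN]
      constructor
      · rintro ⟨a, ha, haU, ⟨q, hq, hTq⟩, rfl⟩
        obtain ⟨s, hs, hs1, hs2, hs3⟩ := hB.filt.dir3 hp hr hq
        have haα : a < α := hp2 i hi z' s hs1 (hD _ _ _ _ hs2 hDz) a (hT _ _ _ _ hs3 hTq)
        rcases h5 ![ordN P a, τ] (Name.forall2 haU hτ) with ⟨q5, hq5, g⟩ | ⟨p5, hp5, hn⟩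
        · exact (Name.val_mem_iff hB.full.at' haU hτ).2 ⟨q5, hq5, g⟩
        · exfalso
          obtain ⟨s', _, hs1', hs2'⟩ := hB.filt.dir s hs p5 hp5
          obtain ⟨r'', hr'', g⟩ := (hz a haα s' (hs1'.trans hs2)).1
            (hT _ _ _ _ (hs1'.trans hs3) hTq)
          exact hn r'' (hr''.trans hs2') g
      · intro hx
        obtain ⟨a, ha, haU, rfl⟩ := (mem_val_ordN hB).1 (hsub hx)
        obtain ⟨q, hq, g⟩ := (Name.val_mem_iff hB.full.at' haU hτ).1 hx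
        refine ⟨a, ha.trans_le hακ, haU, ?_, rfl⟩
        rcases h4 ![ordN P a, ND1.vN κo T hT z'] (Name.forall2 haU hz'U) with
          ⟨q4, hq4, k, g1, g2⟩ | ⟨p4, hp4, hn⟩
        · have e : a = (Ordinal.ToType.toOrd (k : κo.ToType)).1 := ordN_injective g1
          refine ⟨q4, hq4, ?_⟩
          rw [e]
          exact g2
        · exfalso
          obtain ⟨s, _, hs1, hs2, hs3⟩ := hB.filt.dir3 hq hp4 hr
          obtain ⟨r'', hr'', g'⟩ := (hz a ha s hs3).2 (Name.fmem_mono g hs1)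
          have e : (Ordinal.ToType.toOrd (Ordinal.ToType.mk ⟨a, ha.trans_le hακ⟩)).1 = a := by simp
          refine hn r'' (hr''.trans hs2) ⟨Ordinal.ToType.mk ⟨a, ha.trans_le hακ⟩, ?_, ?_⟩
          · show ordN P a = ordN P (Ordinal.ToType.toOrd (Ordinal.ToType.mk
              ⟨a, ha.trans_le hακ⟩ : κo.ToType)).1
            rw [e]
          · show T z' r'' (Ordinal.ToType.toOrd (Ordinal.ToType.mk
              ⟨a, ha.trans_le hακ⟩ : κo.ToType)).1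
            rw [e]
            exact g'
    refine ⟨_, (val_ordN_mem_iff hB hiU hβ).2 hi, (hpair _ _).2 ⟨i, hi, z', hiU, hz'U, hz', rfl,
      hval.symm⟩⟩

end Pool.UL
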