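import Pool.Agent.Lib.MP_9fc97b_un.ND1
import Pool.Agent.Lib.MP_9fc97b_ul.CA2

/-!
# UL, N-side, row ND2
-/

set_option autoImplicit false
set_option linter.unusedSectionVars false

open Cardinal Set Order

namespace Pool.UL

open Pool.PC Pool.MP_3ade05_lc

/-! ### Enumerations of sets -/

open Classical in
/-- An enumeration of the set `S` (with the value `d` outside the domain). -/
noncomputable def ND2enum {Z : Type} (S : Set Z) (d : Z) (i : Ordinal.{0}) : Z :=
  if h : i < (#S).ord then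
    ((Classical.choice (Cardinal.eq.1 (mk_ord_toType #S)) : (#S).ord.ToType ≃ S)
      (Ordinal.ToType.mk ⟨i, h⟩)).1
  else d

lemma ND2enum_mem {Z : Type} {S : Set Z} {d : Z} (hd : d ∈ S) (i : Ordinal.{0}) :
    ND2enum S d i ∈ S := by
  unfold ND2enum
  split_ifs with h
  · exact Subtype.coe_prop _
  · exact hd

lemma ND2enum_surj {Z : Type} {S : Set Z} (d : Z) {z : Z} (hz : z ∈ S) :
    ∃ i < (#S).ord, ND2enum S d i = z := by
  set e : (#S).ord.ToType ≃ S := Classical.choice (Cardinal.eq.1 (mk_ord_toType #S)) with he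
  have h1 : (Ordinal.ToType.toOrd (e.symm ⟨z, hz⟩)).1 < (#S).ord :=
    (Ordinal.ToType.toOrd (e.symm ⟨z, hz⟩)).2
  refine ⟨_, h1, ?_⟩
  unfold ND2enum
  rw [dif_pos h1, ← he]
  simp

variable {Ω : Type} [LinearOrder Ω] [WellFoundedLT Ω] {X Θ : Type} [D : PE Ω X Θ]

lemma ND2_stem_eq {p : Cond Ω X Θ} {k : ℕ} (hk : k < p.len) :
    ∃ t₀ : List Ω, stem p k = p.pt k :: t₀ := by
  obtain ⟨t₁, t₀, r₁, r₀, e1, e2, e3, -⟩ := p.exists_split hk
  refine ⟨t₀, ?_⟩
  unfold stem
  rw [e1]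
  exact (V2_rd_append (l₁ := t₁) (l₂ := p.pt k :: t₀) (n := k + 1) (by simp [e3])).2

lemma ND2_stem_le {p q : Cond Ω X Θ} (h : q ≤ p) {k : ℕ} (hk : k < p.len) :
    stem q k = stem p k := by
  obtain ⟨t₁, t₀, r₁, r₀, e1, e2, e3, -⟩ := p.exists_split hk
  obtain ⟨l, hl⟩ := Cond.le_t h
  unfold stem
  have h1 := (V2_rd_append (l₁ := t₁) (l₂ := p.pt k :: t₀) (n := k + 1) (by simp [e3])).2
  have h2 := (V2_rd_append (l₁ := l ++ t₁) (l₂ := p.pt k :: t₀) (n := k + 1) (by simp [e3])).2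
  rw [← hl, e1, h1, ← List.append_assoc, h2]

/-- The code with index `i` for the stem `t`. -/
noncomputable def ND2dec (X Θ : Type) [D : PE Ω X Θ] (t : List Ω) (i : Ordinal.{0}) :
    Set (List (PO Ω) × Ω) :=
  ND2enum (SCode X Θ t) ∅ i

lemma ND2dec_mem (t : List Ω) (i : Ordinal.{0}) : ND2dec X Θ t i ∈ SCode X Θ t :=
  ND2enum_mem (fun r a h => absurd h (Set.notMem_empty _)) i

/-- Row ND2: (SL). -/
theorem Ev.SL : Ev (P := PP Ω X Θ) (fun U H => ∀ K, GB U H K → ∀ n,
    PowLe (MM U H) (tN X Θ U H K n) (tN X Θ U H K (n + 1))) := by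
  have key : ∀ n : ℕ, Ev (P := PP Ω X Θ) (fun U H => ∀ K, GB U H K →
      PowLe (MM U H) (tN X Θ U H K n) (tN X Θ U H K (n + 1))) := by
    intro n
    have h0 := Ev.powLe (P := PP Ω X Θ) (C := Set (List (PO Ω) × Ω)) (PE.κ Ω X Θ).ord
      (fun z q a => ∃ a' : Ω, oo a' = a ∧ Tz z n q.down a')
      (fun z q q' a hq h => by
        obtain ⟨a', h1, h2⟩ := h
        exact ⟨a', h1, h2.mono hq⟩)
      (fun q i z => n < q.down.len ∧ z = ND2dec X Θ (stem q.down n) i)
      (fun q q' i z hq h => by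
        have hq' : q'.down ≤ q.down := hq
        exact ⟨h.1.trans_le (Cond.len_le hq'), by rw [ND2_stem_le hq' h.1]; exact h.2⟩)
      (fun q i z z' h h' => by rw [h.2, h'.2])
    refine h0.mono ?_
    intro U H h K hB
    obtain ⟨p, hp, hlen, hpt⟩ := hB.exists_len (n + 1)
    have hn : n < p.down.len := by omega
    refine h (tO X Θ K n) (tO X Θ K (n + 1)) (hB.t_mem n) (hB.t_mem (n + 1)) (tO_lt K n).le
      ⟨p, hp, ?_, ?_, ?_⟩
    · intro i _ q hq
      have hq' : q.down ≤ p.down := hq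
      exact ⟨q, le_rfl, _, hn.trans_le (Cond.len_le hq'), rfl⟩
    · rintro i _ z q hq ⟨h1, rfl⟩ a ⟨a', rfl, h2, r, hr, -⟩
      have hq' : q.down ≤ p.down := hq
      have h3 := (ND2dec_mem (X := X) (Θ := Θ) (stem q.down n) i) r a' hr
      obtain ⟨t₀, ht₀⟩ := ND2_stem_eq h1
      have h4 := h3.2 (q.down.pt n) (by rw [ht₀]; rfl)
      rw [Cond.pt_of_le hq' hn, hpt n (Nat.le_succ n)] at h4
      exact oo_lt_iff.2 h4
    · intro q hq R hR
      have hq' : q.down ≤ p.down := hq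
      have hnq : n < q.down.len := hn.trans_le (Cond.len_le hq')
      have hn1q : n + 1 < q.down.len := hlen.trans_le (Cond.len_le hq')
      obtain ⟨q₁, h1, z, hz, h2⟩ := code_small (R := fun (q : Cond Ω X Θ) (a : Ω) =>
        R (ULift.up q) (oo a)) (fun a q q' hq h => hR _ _ _ hq h) q.down hnq
      have hq₁ : q₁ ≤ q.down := h1.le
      obtain ⟨i, hi, hiz⟩ := ND2enum_surj (∅ : Set (List (PO Ω) × Ω)) hz
      have hptn : q.down.pt n = K n := by
        rw [Cond.pt_of_le hq' hn, hpt n (Nat.le_succ n)]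
      have hi' : i < tO X Θ K (n + 1) := by
        obtain ⟨t₀, ht₀⟩ := ND2_stem_eq hnq
        have h3 : #(SCode X Θ (stem q.down n)) < crd (K (n + 1)) := by
          rw [ht₀]
          refine (mk_SCode_le _ _).trans_lt ?_
          rw [hptn]
          exact (D.W_inacc _ (hB.K_W (n + 1))).isStrongLimit.two_power_lt
            (th_lt_crd (hB.K_W (n + 1)) (hB.K_lt (Nat.lt_succ_self n)))
        have h4 : (crd (K (n + 1))).ord ≤ oo (K (n + 1)) := by
          rw [← card_oo]
          exact Cardinal.ord_card_le _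
        have h5 : oo (K (n + 1)) ≤ tO X Θ K (n + 1) := by
          rcases (D.T_ge _ (hB.K_W (n + 1))).lt_or_eq with h | h
          · exact (oo_lt_iff.2 h).le
          · unfold tO
            rw [← h]
        exact hi.trans_le ((Cardinal.ord_le_ord.2 h3.le).trans (h4.trans h5))
      refine ⟨ULift.up q₁, hq₁, i, hi', z, ⟨hnq.trans_le (Cond.len_le hq₁), ?_⟩, ?_⟩
      · change z = ND2dec X Θ (stem q₁ n) i
        rw [ND2_stem_le hq₁ hnq]
        exact hiz.symm
      · intro a ha r' hr'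
        obtain ⟨a', rfl⟩ := (exists_oo X Θ).1 (ha.trans (tO_lt K n))
        have ha' : a' < PE.T X Θ (q.down.pt n) := by
          rw [hptn]
          exact oo_lt_iff.1 ha
        obtain ⟨h3, h4⟩ := h2 a' ha' r'.down hr'
        refine ⟨?_, ?_⟩
        · rintro ⟨a'', e, h5⟩
          obtain rfl := oo_injective e
          obtain ⟨r'', h6, h7⟩ := h3 h5
          exact ⟨ULift.up r'', h6, h7⟩
        · intro h5
          obtain ⟨r'', h6, h7⟩ := h4 h5
          exact ⟨ULift.up r'', h6, a', rfl, h7⟩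
  refine (Ev.all key).mono ?_
  intro U H h K hB n
  exact h n K hB

end Pool.UL
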