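import Pool.Agent.Lib.MP_9fc97b_un.ND1
import Pool.Agent.Lib.MP_9fc97b_ul.CB5
import Pool.Agent.Lib.MP_9fc97b_ul.CB2

/-!
# UL, N-side, row ND3
-/

set_option autoImplicit false
set_option linter.unusedSectionVars false

open Cardinal Set Order

namespace Pool.UL

open Pool.PC Pool.MP_3ade05_lc

variable {Ω : Type} [LinearOrder Ω] [WellFoundedLT Ω] {X Θ : Type} [D : PE Ω X Θ]

/-- Row ND3: (PK). -/
theorem Ev.PK : Ev (P := PP Ω X Θ) (fun U H => ∀ K, GB U H K →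
    PowLe (MM U H) (Name.val U H (ordN _ (PE.κ Ω X Θ).ord)) (Name.val U H (ordN _ (#Θ).ord))) := by
  obtain ⟨g⟩ : Nonempty (BCode Ω Θ ↪ Θ) := mk_BCode_le (D := D)
  have hf : Function.Injective (fun z : BCode Ω Θ => sO (g z)) :=
    fun z z' h => g.injective (sO_injective h)
  have : Nonempty (BCode Ω Θ) := ⟨(fun _ => none, fun _ => none)⟩
  let dec : Ordinal.{0} → BCode Ω Θ := Function.invFun (fun z : BCode Ω Θ => sO (g z))
  have hdec : ∀ z, dec (sO (g z)) = z := fun z => Function.leftInverse_invFun hf z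
  have h := Ev.powLe (P := PP Ω X Θ) (C := BCode Ω Θ) (PE.κ Ω X Θ).ord
    (fun z q a => ∃ a', oo a' = a ∧ Tb z q.down a')
    (fun z q q' a hq hT => by
      obtain ⟨a', h1, h2⟩ := hT
      exact ⟨a', h1, h2.mono hq⟩)
    (fun _ i z => dec i = z) (fun _ _ _ _ _ h => h) (fun _ _ _ _ h h' => h.symm.trans h')
  refine h.mono ?_
  intro U H h K hB
  refine h _ _ hB.κ_mem hB.Θ_mem le_rfl ?_
  obtain ⟨p, hp, -⟩ := hB.exists_len 0
  refine ⟨p, hp, fun i _ q _ => ⟨q, le_rfl, dec i, rfl⟩, ?_, ?_⟩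
  · rintro i - z q - - a ⟨a', rfl, -⟩
    exact oo_lt_κ X Θ a'
  · intro q _ R hR
    obtain ⟨r, hr, z, hz⟩ := code_big (R := fun q a => R (ULift.up q) (oo a))
      (fun a q q' hq h => hR (ULift.up _) (ULift.up _) _ hq h) q.down
    refine ⟨ULift.up r, hr.le, sO (g z), sO_lt _, z, hdec z, ?_⟩
    intro a ha r' hr'
    obtain ⟨a', rfl⟩ := (exists_oo X Θ).1 ha
    obtain ⟨h1, h2⟩ := hz a' r'.down hr'
    constructor
    · rintro ⟨a'', h3, h4⟩
      rw [oo_injective h3] at h4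
      obtain ⟨q'', h5, h6⟩ := h1 h4
      exact ⟨ULift.up q'', h5, h6⟩
    · intro h3
      obtain ⟨q'', h5, h6⟩ := h2 h3
      exact ⟨ULift.up q'', h5, a', rfl, h6⟩

end Pool.UL
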