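import Pool.Agent.Lib.MP_9fc97b_un.NPt

/-!
# UL, N-side: definitions of the names
-/

set_option autoImplicit false
set_option linter.unusedSectionVars false

open Cardinal Set Order

namespace Pool.UL

open Pool.PC Pool.MP_3ade05_lc

/-! ### Ground model functions -/

/-- The name of the ground model function `F` on the ordinal `α`. -/
noncomputable def gfN (P : Type 1) [Preorder P] (α : Ordinal.{0}) (F : Ordinal.{0} → Ordinal.{0}) :
    Name P :=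
  Name.mk α.ToType (fun i => oN (ordN P (Ordinal.ToType.toOrd i).1)
    (ordN P (F (Ordinal.ToType.toOrd i).1))) (fun _ => ⊤)

/-! ### The coordinates -/

section

variable (Θ : Type)

/-- A bijection between the ordinals below `Θ` and `Θ`. -/
noncomputable def eΘ : (#Θ).ord.ToType ≃ Θ :=
  Classical.choice (Cardinal.eq.1 (mk_ord_toType #Θ))

variable {Θ}

/-- The ordinal of a coordinate. -/
noncomputable def sO (s : Θ) : Ordinal.{0} := (Ordinal.ToType.toOrd ((eΘ Θ).symm s)).1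

lemma sO_lt (s : Θ) : sO s < (#Θ).ord := (Ordinal.ToType.toOrd ((eΘ Θ).symm s)).2

lemma sO_injective : Function.Injective (sO : Θ → Ordinal.{0}) := by
  intro s s' h
  have h1 : (eΘ Θ).symm s = (eΘ Θ).symm s' := Ordinal.ToType.mk.symm.injective (Subtype.ext h)
  exact (eΘ Θ).symm.injective h1

lemma exists_sO {ζ : Ordinal.{0}} (h : ζ < (#Θ).ord) : ∃ s : Θ, sO s = ζ := by
  refine ⟨eΘ Θ (Ordinal.ToType.mk ⟨ζ, h⟩), ?_⟩
  unfold sO
  simp

end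

variable {Ω : Type} [LinearOrder Ω] [WellFoundedLT Ω] {X Θ : Type} [D : PE Ω X Θ]

/-- `Ω` is not empty. -/
lemma PE.nonempty (Ω : Type) [LinearOrder Ω] [WellFoundedLT Ω] (X Θ : Type) [D : PE Ω X Θ] :
    Nonempty Ω := by
  rw [← mk_ne_zero_iff, D.mk_Ω]
  exact D.κ_inacc.ne_zero

/-- The least element of `Ω`. -/
noncomputable def zz (Ω : Type) [LinearOrder Ω] [WellFoundedLT Ω] (X Θ : Type) [D : PE Ω X Θ] : Ω :=
  (wellFounded_lt (α := Ω)).min Set.univ (@Set.univ_nonempty _ (PE.nonempty Ω X Θ))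

lemma zz_le (a : Ω) : zz Ω X Θ ≤ a :=
  not_lt.1 ((wellFounded_lt (α := Ω)).not_lt_min Set.univ (Set.mem_univ a))

/-- `q` decides that `e_s(n) = ξ`: the value `t_s(n + 1)` if it is defined and below `t_{n+1}`, and
the least element of `Ω` otherwise. -/
def eR (s : Θ) (q : Cond Ω X Θ) (n : ℕ) (ξ : Ω) : Prop :=
  n + 1 < q.len ∧ ((∃ v, q.Rt s (n + 1) v ∧ ((v < PE.T X Θ (q.pt (n + 1)) ∧ ξ = v) ∨
    (¬ v < PE.T X Θ (q.pt (n + 1)) ∧ ξ = zz Ω X Θ))) ∨ (q.Ru s (n + 1) ∧ ξ = zz Ω X Θ))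

lemma eR.mono {s : Θ} {q q' : Cond Ω X Θ} {n : ℕ} {ξ : Ω} (hq : q' ≤ q) (h : eR s q n ξ) :
    eR s q' n ξ := by
  obtain ⟨h1, h2⟩ := h
  refine ⟨h1.trans_le (Cond.len_le hq), ?_⟩
  rw [Cond.pt_of_le hq h1]
  rcases h2 with ⟨v, h3, h4⟩ | ⟨h3, h4⟩
  · exact Or.inl ⟨v, h3.mono hq, h4⟩
  · exact Or.inr ⟨h3.mono hq, h4⟩

lemma eR.uniq {s : Θ} {q : Cond Ω X Θ} {n : ℕ} {ξ ξ' : Ω} (h : eR s q n ξ) (h' : eR s q n ξ') :
    ξ = ξ' := by
  obtain ⟨-, h2⟩ := h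
  obtain ⟨-, h2'⟩ := h'
  rcases h2 with ⟨v, h3, h4⟩ | ⟨h3, h4⟩ <;> rcases h2' with ⟨v', h3', h4'⟩ | ⟨h3', h4'⟩
  · have e := h3.uniq h3'
    subst e
    rcases h4 with ⟨h5, h6⟩ | ⟨h5, h6⟩ <;> rcases h4' with ⟨h5', h6'⟩ | ⟨h5', h6'⟩
    · rw [h6, h6']
    · exact absurd h5 h5'
    · exact absurd h5' h5
    · rw [h6, h6']
  · exact absurd h3' h3.not_Ru
  · exact absurd h3 h3'.not_Ru
  · rw [h4, h4']

lemma eR.dense (s : Θ) (p : Cond Ω X Θ) (n : ℕ) : ∃ q ≤ p, ∃ ξ, eR s q n ξ := by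
  obtain ⟨q₁, h1, h2, -⟩ := p.exists_len (n + 2) p.m
  obtain ⟨q, h3, h4⟩ := q₁.dense_Rt s (n + 1)
  have h5 : n + 1 < q.len := by
    have := Cond.len_le h3
    omega
  refine ⟨q, h3.trans h1, ?_⟩
  rcases h4 with ⟨v, h4⟩ | h4
  · by_cases hv : v < PE.T X Θ (q.pt (n + 1))
    · exact ⟨v, h5, Or.inl ⟨v, h4, Or.inl ⟨hv, rfl⟩⟩⟩
    · exact ⟨_, h5, Or.inl ⟨v, h4, Or.inr ⟨hv, rfl⟩⟩⟩
  · exact ⟨_, h5, Or.inr ⟨h4, rfl⟩⟩

lemma eR.lt {s : Θ} {q : Cond Ω X Θ} {n : ℕ} {ξ : Ω} (h : eR s q n ξ) :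
    ξ < PE.T X Θ (q.pt (n + 1)) := by
  obtain ⟨h1, h2⟩ := h
  have hW := q.pt_mem_W h1
  have hz : zz Ω X Θ < PE.T X Θ (q.pt (n + 1)) := by
    have h0 : (0 : Cardinal.{0}) < crd (q.pt (n + 1)) :=
      aleph0_pos.trans (aleph0_lt_crd (X := X) (Θ := Θ) hW)
    have h4 : (Iio (q.pt (n + 1))).Nonempty := by
      rw [← Set.nonempty_coe_sort, ← mk_ne_zero_iff]
      exact h0.ne'
    obtain ⟨b, hb⟩ := h4
    exact ((zz_le b).trans_lt hb).trans_le (D.T_ge _ hW)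
  rcases h2 with ⟨v, h3, ⟨h4, rfl⟩ | ⟨h4, rfl⟩⟩ | ⟨h3, rfl⟩
  · exact h4
  · exact hz
  · exact hz

variable (Ω X Θ)

/-- The name of the sequence of the `t_n`. -/
noncomputable def tFN : Name (PP Ω X Θ) :=
  relN (I := ℕ) (J := Ω) (fun n => ordN _ (n : Ordinal.{0})) (fun a => ordN _ (oo a))
    (fun q n a => n < q.down.len ∧ a = PE.T X Θ (q.down.pt n))
    (fun q q' n a hq h => by
      have hq' : q'.down ≤ q.down := hq
      exact ⟨h.1.trans_le (Cond.len_le hq'), by rw [Cond.pt_of_le hq' h.1]; exact h.2⟩)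

/-- The name of the set of the triples `(n, (ξ, a))` with `X^n(ξ, a) = 1`. -/
noncomputable def XN : Name (PP Ω X Θ) :=
  relN (I := ℕ) (J := Ω × Ω) (fun n => ordN _ (n : Ordinal.{0}))
    (fun z => oN (ordN _ (oo z.1)) (ordN _ (oo z.2)))
    (fun q n z => n + 1 < q.down.len ∧ q.down.cc (n + 1) z = some true)
    (fun q q' n z hq h => by
      have hq' : q'.down ≤ q.down := hq
      exact ⟨h.1.trans_le (Cond.len_le hq'), Cond.cc_sub hq' h.1 _ _ h.2⟩)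

/-- The name of the set of the `((s, n), ξ)` with `e_s(n) = ξ`. -/
noncomputable def eN : Name (PP Ω X Θ) :=
  relN (I := Θ × ℕ) (J := Ω) (fun i => oN (ordN _ (sO i.1)) (ordN _ (i.2 : Ordinal.{0})))
    (fun ξ => ordN _ (oo ξ)) (fun q i ξ => eR i.1 q.down i.2 ξ)
    (fun q q' i ξ hq h => by
      have hq' : q'.down ≤ q.down := hq
      exact h.mono hq')

end Pool.UL
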