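import Pool.Agent.Lib.MP_9fc97b_ul.CA2

/-!
# UL, N-side, row NE1
-/

set_option autoImplicit false
set_option linter.unusedSectionVars false

open Cardinal Set Order

namespace Pool.UL

variable {Ω : Type} [LinearOrder Ω] [WellFoundedLT Ω] {X Θ : Type} [D : PE Ω X Θ]

lemma NE1.stem_eq (p : Cond Ω X Θ) {k : ℕ} (hk : k < p.len) :
    ∃ s : List Ω, stem p k = p.pt k :: s := by
  obtain ⟨t₁, t₀, r₁, r₀, e1, e2, e3, -⟩ := p.exists_split hk
  refine ⟨t₀, ?_⟩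
  unfold stem
  rw [e1, List.rtake_eq_reverse_take_reverse, List.reverse_append, List.reverse_cons,
    List.append_assoc, List.take_append, List.take_of_length_le (by simp; omega)]
  have h1 : k + 1 - t₀.reverse.length = 1 := by
    rw [List.length_reverse]
    omega
  rw [h1]
  simp

/-- Row NE1: no name for a function from a small set onto the set of the codes. -/
theorem cantor_small {A B : Type} {p : Cond Ω X Θ} {k : ℕ} (hk : k < p.len)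
    (hA : #A ≤ th X Θ (p.pt k)) (hB : 2 ^ th X Θ (p.pt k) < #B)
    {R : Cond Ω X Θ → A → B → Prop} (hR : FN p R) :
    ∃ q ≤ p, ∃ b, ∀ q' ≤ q, ∀ a, ¬ R q' a b := by
  obtain ⟨s, hs⟩ := NE1.stem_eq p hk
  obtain ⟨e⟩ : Nonempty (A ↪ Iio (PE.T X Θ (p.pt k))) := Cardinal.le_def _ _ |>.1 hA
  have hc : #(SCode X Θ (stem p k)) ≤ #B := by
    rw [hs]
    exact (mk_SCode_le _ _).trans hB.le
  obtain ⟨c⟩ : Nonempty (SCode X Θ (stem p k) ↪ B) := Cardinal.le_def _ _ |>.1 hc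
  let RD : Cond Ω X Θ → Ω → Prop := fun q a' => ∃ (a : A) (z : SCode X Θ (stem p k)),
    (e a : Ω) = a' ∧ R q a (c z) ∧ ∀ q'' ≤ q, ¬ Tz z.1 k q'' a'
  have hRD : ∀ a, Mono (fun q => RD q a) := by
    rintro a' q q' hq ⟨a, z, h1, h2, h3⟩
    exact ⟨a, z, h1, hR.mono _ _ _ _ hq h2, fun q'' hq'' => h3 q'' (hq''.trans hq)⟩
  obtain ⟨q, hq, z, hz, h⟩ := code_small hRD p hk
  refine ⟨q, hq.le, c ⟨z, hz⟩, fun q' hq' a ha => ?_⟩
  obtain ⟨h1, h2⟩ := h (e a) (e a).2 q' hq'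
  by_cases h3 : ∃ q'' ≤ q', Tz z k q'' (e a)
  · obtain ⟨q'', hq'', h4⟩ := h3
    obtain ⟨q3, hq3, a1, z1, h5, h6, h7⟩ := (h (e a) (e a).2 q'' (hq''.trans hq')).1 h4
    have h8 : a1 = a := e.injective (Subtype.ext h5)
    subst h8
    have h9 : c ⟨z, hz⟩ = c z1 := hR.uniq q3 (hq3.trans (hq''.trans (hq'.trans hq.le))) a1 _ _
      (hR.mono _ _ _ _ (hq3.trans hq'') ha) h6
    have h10 : (⟨z, hz⟩ : SCode X Θ (stem p k)) = z1 := c.injective h9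
    refine h7 q3 le_rfl ?_
    rw [← h10]
    exact h4.mono hq3
  · obtain ⟨q'', hq'', h4⟩ := h2 ⟨a, ⟨z, hz⟩, rfl, ha, fun q'' hq'' h4 => h3 ⟨q'', hq'', h4⟩⟩
    exact h3 ⟨q'', hq'', h4⟩

end Pool.UL
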