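import Pool.Agent.Lib.MP_9fc97b_un.NDef
import Pool.Agent.Lib.MP_9fc97b_un.NE1
import Pool.Agent.Lib.MP_9fc97b_ul.CC3

/-!
# UL, N-side, row NE2
-/

set_option autoImplicit false
set_option linter.unusedSectionVars false

open Cardinal Set Order

namespace Pool.UL

open Pool.PC Pool.MP_3ade05_lc

variable {Ω : Type} [LinearOrder Ω] [WellFoundedLT Ω] {X Θ : Type} [D : PE Ω X Θ]

namespace NE2

lemma infCard_of {U : Set (Name (PP Ω X Θ))} {H : Set (PP Ω X Θ)} (hB : Base U H)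
    {α : Ordinal.{0}} (hα : ordN _ α ∈ U) (hω : Ordinal.omega0 ≤ α)
    (h : ∀ δ < α, ordN _ δ ∈ U → ∀ f ∈ MM U H, FunOn f (Name.val U H (ordN _ δ)) →
      ∃ y ∈ Name.val U H (ordN _ α), ∀ x ∈ Name.val U H (ordN _ δ), ZFSet.pair x y ∉ f) :
    InfCard (MM U H) (Name.val U H (ordN _ α)) where
  mem := ⟨ordN _ α, mem_univ _, hα, rfl⟩
  ord := isOrdinal_val_ordN hB α
  inf := by
    rw [← val_ordN_omega hB]
    exact (val_ordN_subset_iff hB hB.omega hα).2 hω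
  card := by
    intro a ha f hf hfa
    obtain ⟨δ, hδ, hδU, rfl⟩ := (mem_val_ordN hB).1 ha
    exact h δ hδ hδU f hf hfa

/-- the relation on `Cond` -/
lemma fn_down {A B : Type} {p : PP Ω X Θ} {R : PP Ω X Θ → A → B → Prop}
    (hmono : ∀ q q' a b, q' ≤ q → R q a b → R q' a b)
    (huniq : ∀ q ≤ p, ∀ a b b', R q a b → R q a b' → b = b') :
    FN p.down (fun (q : Cond Ω X Θ) a b => R (ULift.up q) a b) where
  mono := fun q q' a b h => hmono (ULift.up q) (ULift.up q') a b h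
  uniq := fun q hq a b b' => huniq (ULift.up q) hq a b b'

lemma lift_ns {A B : Type} {p : PP Ω X Θ} {R : PP Ω X Θ → A → B → Prop}
    (h : ∃ q ≤ p.down, ∃ b, ∀ q' ≤ q, ∀ a, ¬ R (ULift.up q') a b) :
    ∃ q ≤ p, ∃ b, ∀ q' ≤ q, ∀ a, ¬ R q' a b := by
  obtain ⟨q, hq, b, hb⟩ := h
  exact ⟨ULift.up q, hq, b, fun q' hq' a => hb q'.down hq' a⟩

lemma omega_le_ord {c : Cardinal.{0}} (hc : ℵ₀ ≤ c) : Ordinal.omega0 ≤ c.ord := by
  rw [← Cardinal.ord_aleph0]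
  exact Cardinal.ord_le_ord.2 hc

end NE2

/-- Row NE2: `κ` is a cardinal of the generic model. -/
theorem Ev.infCard_κ : Ev (P := PP Ω X Θ) (fun U H => ∀ K, GB U H K →
    InfCard (MM U H) (Name.val U H (ordN _ (PE.κ Ω X Θ).ord))) := by
  refine Ev.no_surj.mono fun U H hns K hB => ?_
  refine NE2.infCard_of hB.toBase hB.κ_mem (NE2.omega_le_ord D.κ_inacc.aleph0_lt.le)
      fun δ hδ hδU f hf hfa => ?_
  obtain ⟨a, rfl⟩ := (exists_oo X Θ).1 hδ
  obtain ⟨n, hn⟩ := hB.unb a hδU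
  obtain ⟨p₀, hp₀, hn', hpt⟩ := hB.pts n
  refine hns _ _ hδU hB.κ_mem ⟨p₀, hp₀, fun p hp R hmono huniq => NE2.lift_ns ?_⟩ f hf hfa
  have hp' : p.down ≤ p₀.down := hp
  have e : p.down.pt n = K n := by rw [Cond.pt_of_le hp' hn', hpt]
  have hW := hB.K_W n
  refine cantor_small (k := n) (hn'.trans_le (Cond.len_le hp')) ?_ ?_ (NE2.fn_down hmono huniq)
  · rw [mk_toType, card_oo, e]
    exact (D.W_init _ hW a hn).le.trans (crd_le_th hW)
  · rw [mk_toType, card_ord, e]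
    exact D.κ_inacc.isStrongLimit.isStrongPrelimit (th_lt_κ (K n))

/-- Row NE2: cardinals above `2 ^ κ` are preserved. -/
theorem Ev.infCard_big : Ev (P := PP Ω X Θ) (fun U H => ∀ K, GB U H K →
    ∀ c : Cardinal.{0}, 2 ^ (PE.κ Ω X Θ) < c → ordN _ c.ord ∈ U →
      InfCard (MM U H) (Name.val U H (ordN _ c.ord))) := by
  refine Ev.no_surj.mono fun U H hns K hB c hc hcU => ?_
  have h0 : ℵ₀ ≤ c :=
    (D.κ_inacc.aleph0_lt.le.trans (cantor (PE.κ Ω X Θ)).le).trans hc.le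
  refine NE2.infCard_of hB.toBase hcU (NE2.omega_le_ord h0) fun δ hδ hδU f hf hfa => ?_
  obtain ⟨p₀, hp₀⟩ := hB.filt.ne
  refine hns δ _ hδU hcU ⟨p₀, hp₀, fun p _ R hmono huniq => NE2.lift_ns ?_⟩ f hf hfa
  obtain ⟨b, hb⟩ := preserve_big (c := max δ.card (2 ^ (PE.κ Ω X Θ))) (le_max_right _ _)
    (by rw [mk_toType]; exact le_max_left _ _)
    (by rw [mk_toType, card_ord]; exact max_lt (lt_ord.1 hδ) hc) (NE2.fn_down hmono huniq)
  exact ⟨p.down, le_rfl, b, hb⟩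

end Pool.UL
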