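import Pool.Agent.Lib.MP_9fc97b_un.NC2
import Pool.Agent.Lib.MP_9fc97b_un.NE2

/-!
# UL, N-side, row NE3
-/

set_option autoImplicit false
set_option linter.unusedSectionVars false

open Cardinal Set Order

namespace Pool.UL

open Pool.PC Pool.MP_3ade05_lc

variable {Ω : Type} [LinearOrder Ω] [WellFoundedLT Ω] {X Θ : Type} [D : PE Ω X Θ]

/-- Row NE3: (CA). -/
theorem Ev.CA : Ev (P := PP Ω X Θ) (fun U H => ∀ K, GB U H K →
    ∀ r ∈ Name.val U H (ordN _ (#Θ).ord), ∃ r₀ r₁, r ⊆ r₀ ∧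
      Name.val U H (ordN _ (PE.κ Ω X Θ).ord) ⊆ r₀ ∧ r₀ ∈ r₁ ∧
      r₁ ∈ Name.val U H (ordN _ (#Θ).ord) ∧ InfCard (MM U H) r₁ ∧ Sq (MM U H) r₀ ∧
      Sq (MM U H) r₁) := by
  refine (((Ev.ord1 (P := PP Ω X Θ)
    (fun ρ => max ρ ((2 : Cardinal.{0}) ^ (PE.κ Ω X Θ)).ord)).and
    (Ev.ord1 (P := PP Ω X Θ)
      (fun ρ => (Order.succ (max ρ ((2 : Cardinal.{0}) ^ (PE.κ Ω X Θ)).ord).card).ord))).and
    ((Ev.ground_sq (P := PP Ω X Θ)).and (Ev.infCard_big (Ω := Ω) (X := X) (Θ := Θ)))).mono ?_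
  rintro U H ⟨⟨h0, h1⟩, hsq, hic⟩ K hB r hr
  obtain ⟨ρ, hρ, hρU, rfl⟩ := (mem_val_ordN hB.toBase).1 hr
  have h0' := h0 ρ hρU
  have h1' := h1 ρ hρU
  set c₀ : Cardinal.{0} := (2 : Cardinal.{0}) ^ (PE.κ Ω X Θ) with hc₀
  set α : Ordinal.{0} := max ρ c₀.ord with hα
  have hκ : ℵ₀ ≤ PE.κ Ω X Θ := D.κ_inacc.aleph0_lt.le
  have hκc : PE.κ Ω X Θ < c₀ := cantor _
  have hω : Ordinal.omega0 ≤ α := by
    rw [← ord_aleph0]
    exact (ord_le_ord.2 (hκ.trans hκc.le)).trans (le_max_right _ _)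
  have hcα : c₀ ≤ α.card := by
    have h2 : c₀.ord ≤ α := le_max_right _ _
    have h3 := Ordinal.card_le_card h2
    rwa [card_ord] at h3
  have hαΘ : α < (#Θ).ord := max_lt hρ (ord_lt_ord.2 (D.S_lim _ D.κ_lt))
  have hαc : α.card < #Θ := lt_ord.1 hαΘ
  have hsΘ : Order.succ α.card < #Θ :=
    (Order.succ_le_of_lt (cantor α.card)).trans_lt (D.S_lim _ hαc)
  have hαs : α < (Order.succ α.card).ord := lt_ord.2 (Order.lt_succ _)
  refine ⟨Name.val U H (ordN _ α), Name.val U H (ordN _ (Order.succ α.card).ord), ?_, ?_, ?_, ?_,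
    ?_, ?_, ?_⟩
  · exact (val_ordN_subset_iff hB.toBase hρU h0').2 (le_max_left _ _)
  · exact (val_ordN_subset_iff hB.toBase hB.κ_mem h0').2
      ((ord_le_ord.2 hκc.le).trans (le_max_right _ _))
  · exact (val_ordN_mem_iff hB.toBase h0' h1').2 hαs
  · exact (val_ordN_mem_iff hB.toBase h1' hB.Θ_mem).2 (ord_lt_ord.2 hsΘ)
  · exact hic K hB _ (hcα.trans_lt (Order.lt_succ _)) h1'
  · exact hsq α h0' hω
  · exact hsq _ h1' (hω.trans hαs.le)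

end Pool.UL
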