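import Pool.Agent.Lib.MP_9fc97b_un.NFd
import Pool.Agent.Lib.MP_9fc97b_ul.LC6

/-!
# UL, N-side, row NF1
-/

set_option autoImplicit false
set_option linter.unusedSectionVars false

open Cardinal Set Order

namespace Pool.UL

open Pool.PC Pool.MP_3ade05_lc

variable {Ω : Type} [LinearOrder Ω] [WellFoundedLT Ω] {X Θ : Type} [D : PE Ω X Θ]

/-- Enumeration of a small set by ordinals. -/
lemma NF1_enum {C : Type} {α : Ordinal.{0}} (hC : #C ≤ α.card) (f : C → Ordinal.{0})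
    (β : Ordinal.{0}) (hβ : 0 < β) (hf : ∀ c, f c < β) :
    ∃ F : Ordinal.{0} → Ordinal.{0}, (∀ i, F i < β) ∧ ∀ c, ∃ i < α, F i = f c := by
  classical
  by_cases hne : Nonempty C
  · have h1 : #C ≤ #α.ToType := by
      rw [mk_toType]
      exact hC
    obtain ⟨g⟩ := (Cardinal.le_def _ _).1 h1
    have hs : Function.Surjective (Function.invFun g) := Function.invFun_surjective g.injective
    refine ⟨fun i => if h : i < α then f (Function.invFun g (Ordinal.ToType.mk ⟨i, h⟩)) else 0,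
      ?_, ?_⟩
    · intro i
      dsimp only
      split_ifs with h
      · exact hf _
      · exact hβ
    · intro c
      obtain ⟨j, hj⟩ := hs c
      refine ⟨(Ordinal.ToType.toOrd j).1, (Ordinal.ToType.toOrd j).2, ?_⟩
      have h2 : ((Ordinal.ToType.toOrd j).1 : Ordinal.{0}) < α := (Ordinal.ToType.toOrd j).2
      dsimp only
      rw [dif_pos h2, ← hj]
      congr 2
      simp
  · exact ⟨fun _ => 0, fun _ => hβ, fun c => absurd ⟨c⟩ hne⟩

/-- Row NF1: density of `Good1`, from `lc_main`. -/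
theorem Good1.dense (τ : Name (PP Ω X Θ)) (p : Cond Ω X Θ) :
    ∃ q ≤ p, ∃ F : Ordinal.{0} → Ordinal.{0}, (∀ i, F i < (#Θ).ord) ∧ Good1 τ F q := by
  obtain ⟨q, hq, Y, hY, h⟩ := lc_main (fun q n a => aR τ q n a)
    (fun q q' n a hq h => h.mono hq) p
  have hpos : (0 : Ordinal.{0}) < (#Θ).ord := by
    rw [lt_ord, Ordinal.card_zero]
    exact (aleph0_pos.trans D.κ_inacc.aleph0_lt).trans D.κ_lt
  obtain ⟨F, hF1, hF2⟩ := NF1_enum (C := Y) (α := (PE.κ Ω X Θ).ord) (by rw [card_ord]; exact hY)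
    (fun y => sO y.1) (#Θ).ord hpos (fun y => sO_lt y.1)
  refine ⟨q, hq, F, hF1, fun s hs q₂ hq₂ => ?_⟩
  have hsY : s ∉ Y := by
    intro hsY
    obtain ⟨i, hi, hi'⟩ := hF2 ⟨s, hsY⟩
    exact hs i hi hi'
  exact h s hsY q₂ hq₂

/-- Row NF1: a small set which contains `A_n` is enumerated on `t_n`. -/
theorem exists_Cvr {τ : Name (PP Ω X Θ)} {n : ℕ} {q : Cond Ω X Θ} (hn : n + 1 < q.len)
    {C : Set Ω} (hC : #C ≤ th X Θ (q.pt n))
    (h : ¬ ∃ q₄ ≤ q, ∃ a ∉ C, a < PE.T X Θ (q.pt (n + 1)) ∧ aR τ q₄ n a) :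
    ∃ F, Cvr τ n q (oo (PE.T X Θ (q.pt n))) F := by
  have hpos : (0 : Ordinal.{0}) < (PE.κ Ω X Θ).ord := by
    rw [lt_ord, Ordinal.card_zero]
    exact aleph0_pos.trans D.κ_inacc.aleph0_lt
  obtain ⟨F, hF1, hF2⟩ := NF1_enum (C := C) (α := oo (PE.T X Θ (q.pt n)))
    (by rw [card_oo]; exact hC) (fun y => oo y.1) (PE.κ Ω X Θ).ord hpos
    (fun y => oo_lt_κ X Θ y.1)
  refine ⟨F, hn, rfl, fun q₄ hq₄ a ha hR => ?_⟩
  by_cases haC : a ∈ C
  · exact hF2 ⟨a, haC⟩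
  · exact absurd ⟨q₄, hq₄, a, haC, ha, hR⟩ h

end Pool.UL
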