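import Pool.Agent.Lib.MP_9fc97b_un.NF1

/-!
# UL, N-side, row NF2
-/

set_option autoImplicit false
set_option linter.unusedSectionVars false

open Cardinal Set Order

namespace Pool.UL

open Pool.PC Pool.MP_3ade05_lc

variable {Ω : Type} [LinearOrder Ω] [WellFoundedLT Ω] {X Θ : Type} [D : PE Ω X Θ]

/-- Row NF2: genericity, part 1. -/
theorem Ev.lc1 : Ev (P := PP Ω X Θ) (fun U H => ∀ K, GB U H K → ∀ τ ∈ U,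
    ∃ q ∈ H, ∃ F, gfN (PP Ω X Θ) (PE.κ Ω X Θ).ord F ∈ U ∧ (∀ i, F i < (#Θ).ord) ∧
      Good1 τ F q.down) := by
  have t := Ev.gen (P := PP Ω X Θ) (n := 1) (fun v q ρ => ∃ F : Ordinal.{0} → Ordinal.{0},
    ρ = gfN (PP Ω X Θ) (PE.κ Ω X Θ).ord F ∧ (∀ i, F i < (#Θ).ord) ∧ Good1 (v 0) F q.down)
  refine t.mono ?_
  intro U H h K hB τ hτ
  rcases h (fun _ => τ) (fun _ => hτ) with ⟨q, hq, ρ, hρ, F, rfl, hF, hG⟩ | ⟨p, hp, hn⟩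
  · exact ⟨q, hq, F, hρ, hF, hG⟩
  · exfalso
    obtain ⟨q, hq, F, hF, hG⟩ := Good1.dense τ p.down
    exact hn (ULift.up q) hq _ ⟨F, rfl, hF, hG⟩

/-- Row NF2: genericity, part 2. -/
theorem Ev.lc2 : Ev (P := PP Ω X Θ) (fun U H => ∀ K, GB U H K → ∀ τ ∈ U, ∀ q ∈ H, ∀ F,
    Good1 τ F q.down → ∀ s : Θ, ordN _ (sO s) ∈ U → (∀ i < (PE.κ Ω X Θ).ord, F i ≠ sO s) →
      ∃ q' ∈ H, ∃ N, Good2 τ s N q'.down) := by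
  have t := Ev.gen' (P := PP Ω X Θ) (n := 2) (fun v q => ∃ s : Θ, v 1 = ordN _ (sO s) ∧
    ∃ N, Good2 (v 0) s N q.down)
  refine t.mono ?_
  intro U H h K hB τ hτ q hq F hG s hs hF
  rcases h ![τ, ordN _ (sO s)] (Name.forall2 hτ hs) with ⟨q', hq', s', hs', N, hN⟩ | ⟨p, hp, hn⟩
  · have e : s = s' := sO_injective (ordN_injective hs')
    subst e
    exact ⟨q', hq', N, hN⟩
  · exfalso
    obtain ⟨r, hr, hrp, hrq⟩ := hB.filt.dir p hp q hq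
    obtain ⟨q', hq', N, hN⟩ := hG s hF r.down hrq
    have h1 : q' ≤ p.down := hq'.trans hrp
    exact hn (ULift.up q') h1 ⟨s, rfl, N, hN⟩

/-- Row NF2: genericity, part 3. -/
theorem Ev.lc3 : Ev (P := PP Ω X Θ) (fun U H => ∀ K, GB U H K → ∀ τ ∈ U, ∀ s : Θ,
    ordN _ (sO s) ∈ U → ∀ (n : ℕ) (b : Bool),
    (∃ q ∈ H, ∃ ν ∈ U, ∃ a ξ : Ω, ordN _ (oo a) ∈ U ∧ ordN _ (oo ξ) ∈ U ∧
      Name.fmem (oN (ordN _ (n : Ordinal.{0})) ν) τ q ∧ Name.fmem (ordN _ (oo a)) ν q ∧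
      q.down.Rt s (n + 1) ξ ∧ q.down.cc (n + 1) (ξ, a) = some b) ∨
    (∃ p ∈ H, ∀ q ≤ p, ∀ a ξ, aR τ q.down n a → q.down.Rt s (n + 1) ξ →
      q.down.cc (n + 1) (ξ, a) ≠ some b)) := by
  have t : Ev (P := PP Ω X Θ) (fun U H => ∀ z : ℕ × Bool, ∀ v : Fin 2 → Name (PP Ω X Θ),
      (∀ i, v i ∈ U) → (∃ q ∈ H, ∃ ρ ∈ U, ∃ (s : Θ) (ν : Name (PP Ω X Θ)) (a ξ : Ω),
        v 1 = ordN _ (sO s) ∧ ρ = oN ν (oN (ordN _ (oo a)) (ordN _ (oo ξ))) ∧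
        Name.fmem (oN (ordN _ (z.1 : Ordinal.{0})) ν) (v 0) q ∧
        Name.fmem (ordN _ (oo a)) ν q ∧ q.down.Rt s (z.1 + 1) ξ ∧
        q.down.cc (z.1 + 1) (ξ, a) = some z.2) ∨
      (∃ p ∈ H, ∀ q ≤ p, ∀ ρ, ¬ ∃ (s : Θ) (ν : Name (PP Ω X Θ)) (a ξ : Ω),
        v 1 = ordN _ (sO s) ∧ ρ = oN ν (oN (ordN _ (oo a)) (ordN _ (oo ξ))) ∧
        Name.fmem (oN (ordN _ (z.1 : Ordinal.{0})) ν) (v 0) q ∧
        Name.fmem (ordN _ (oo a)) ν q ∧ q.down.Rt s (z.1 + 1) ξ ∧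
        q.down.cc (z.1 + 1) (ξ, a) = some z.2)) :=
    Ev.all fun z => Ev.gen (P := PP Ω X Θ) (n := 2) (fun v q ρ =>
      ∃ (s : Θ) (ν : Name (PP Ω X Θ)) (a ξ : Ω),
        v 1 = ordN _ (sO s) ∧ ρ = oN ν (oN (ordN _ (oo a)) (ordN _ (oo ξ))) ∧
        Name.fmem (oN (ordN _ (z.1 : Ordinal.{0})) ν) (v 0) q ∧
        Name.fmem (ordN _ (oo a)) ν q ∧ q.down.Rt s (z.1 + 1) ξ ∧
        q.down.cc (z.1 + 1) (ξ, a) = some z.2)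
  refine t.mono ?_
  intro U H h K hB τ hτ s hs n b
  rcases h (n, b) ![τ, ordN _ (sO s)] (Name.forall2 hτ hs) with
    ⟨q, hq, ρ, hρ, s', ν, a, ξ, hs', rfl, h1, h2, h3, h4⟩ | ⟨p, hp, hn⟩
  · have e : s = s' := sO_injective (ordN_injective hs')
    subst e
    obtain ⟨h5, h6⟩ := hB.parts _ _ hρ
    obtain ⟨h7, h8⟩ := hB.parts _ _ h6
    exact Or.inl ⟨q, hq, ν, h5, a, ξ, h7, h8, h1, h2, h3, h4⟩
  · refine Or.inr ⟨p, hp, ?_⟩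
    intro q hq a ξ ha hR hc
    obtain ⟨ν, h1, h2⟩ := ha
    exact hn q hq _ ⟨s, ν, a, ξ, rfl, rfl, h1, h2, hR, hc⟩

/-- Row NF2: genericity, part 4. -/
theorem Ev.lc4 : Ev (P := PP Ω X Θ) (fun U H => ∀ K, GB U H K → ∀ τ ∈ U, ∀ n : ℕ,
    (∃ q ∈ H, ∃ α F, gfN (PP Ω X Θ) α F ∈ U ∧ Cvr τ n q.down α F) ∨
    (∃ p ∈ H, ∀ q ≤ p, ∀ α F, ¬ Cvr τ n q.down α F)) := by
  have t : Ev (P := PP Ω X Θ) (fun U H => ∀ n : ℕ, ∀ v : Fin 1 → Name (PP Ω X Θ),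
      (∀ i, v i ∈ U) → (∃ q ∈ H, ∃ ρ ∈ U, ∃ (α : Ordinal.{0}) (F : Ordinal.{0} → Ordinal.{0}),
        ρ = gfN (PP Ω X Θ) α F ∧ Cvr (v 0) n q.down α F) ∨
      (∃ p ∈ H, ∀ q ≤ p, ∀ ρ, ¬ ∃ (α : Ordinal.{0}) (F : Ordinal.{0} → Ordinal.{0}),
        ρ = gfN (PP Ω X Θ) α F ∧ Cvr (v 0) n q.down α F)) :=
    Ev.all fun n => Ev.gen (P := PP Ω X Θ) (n := 1) (fun v q ρ =>
      ∃ (α : Ordinal.{0}) (F : Ordinal.{0} → Ordinal.{0}),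
        ρ = gfN (PP Ω X Θ) α F ∧ Cvr (v 0) n q.down α F)
  refine t.mono ?_
  intro U H h K hB τ hτ n
  rcases h n (fun _ => τ) (fun _ => hτ) with ⟨q, hq, ρ, hρ, α, F, rfl, hC⟩ | ⟨p, hp, hn⟩
  · exact Or.inl ⟨q, hq, α, F, hρ, hC⟩
  · exact Or.inr ⟨p, hp, fun q hq α F hC => hn q hq _ ⟨α, F, rfl, hC⟩⟩

end Pool.UL
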