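import Pool.Agent.Lib.MP_9fc97b_un.NF2
import Pool.Agent.Lib.MP_9fc97b_un.NC1
import Pool.Agent.Lib.MP_9fc97b_un.NB2
import Pool.Agent.Lib.MP_9fc97b_un.NB3

/-!
# UL, N-side, row NF3
-/

set_option autoImplicit false
set_option linter.unusedSectionVars false

open Cardinal Set Order

namespace Pool.UL

open Pool.PC Pool.MP_3ade05_lc

variable {Ω : Type} [LinearOrder Ω] [WellFoundedLT Ω] {X Θ : Type} [D : PE Ω X Θ]

/-- The `k`-th lower entry is empty if there is none. -/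
lemma NF3_len {q : Cond Ω X Θ} {k : ℕ} {z : Ω × Ω} {b : Bool} (h : q.cc k z = some b) :
    k < q.len := by
  by_contra hk
  have h1 : q.r.reverse[k]? = none := by
    rw [List.getElem?_eq_none_iff, List.length_reverse, Cond.low_length]
    omega
  unfold Cond.cc at h
  rw [h1] at h
  exact absurd h (by simp)

lemma NF3_eR {s : Θ} {q q' r : Cond Ω X Θ} {n : ℕ} {ξ ξ' a : Ω} {b : Bool} (hq : r ≤ q)
    (hq' : r ≤ q') (h : q.Rt s (n + 1) ξ) (hc : q.cc (n + 1) (ξ, a) = some b)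
    (h' : eR s q' n ξ') : ξ' = ξ := by
  have hl : n + 1 < q.len := NF3_len hc
  have h1 : ξ < PE.T X Θ (q.pt (n + 1)) := ((q.cc_dom hl).2 _ _ hc).1
  have h2 : eR s q n ξ := ⟨hl, Or.inl ⟨ξ, h, Or.inl ⟨h1, rfl⟩⟩⟩
  exact (h'.mono hq').uniq (h2.mono hq)

/-- The second component of a pair in a set of the model is in the model. -/
lemma NF3_snd {U : Set (Name (PP Ω X Θ))} {H : Set (PP Ω X Θ)} {x y z : ZFSet.{0}}
    (hx : x ∈ MM U H) (h : ZFSet.pair y z ∈ x) : z ∈ MM U H := by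
  have h1 : ZFSet.pair y z ∈ MM U H := MM_trans hx h
  have h2 : ({y, z} : ZFSet.{0}) ∈ ZFSet.pair y z := by
    rw [ZFSet.pair, ZFSet.mem_pair]
    exact Or.inr rfl
  have h3 : ({y, z} : ZFSet.{0}) ∈ MM U H := MM_trans h1 h2
  refine MM_trans h3 ?_
  rw [ZFSet.mem_pair]
  exact Or.inr rfl

/-- Row NF3: (LC) in the generic model. -/
theorem Ev.LC : Ev (P := PP Ω X Θ) (fun U H => ∀ K, GB U H K → ∀ A ∈ MM U H,
    FunOn A ZFSet.omega → ∃ g ∈ MM U H, FunOn g (Name.val U H (ordN _ (PE.κ Ω X Θ).ord)) ∧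
    ∀ η ∈ Name.val U H (ordN _ (#Θ).ord),
      (∀ x ∈ Name.val U H (ordN _ (PE.κ Ω X Θ).ord), ZFSet.pair x η ∉ g) →
      ∃ k : ℕ, ∀ n ≥ k, ∀ C, ZFSet.pair (num n) C ∈ A → C ⊆ tN X Θ U H K (n + 1) →
        ¬ Cov (MM U H) (tN X Θ U H K n) C →
        ∀ ξ, ZFSet.pair (ZFSet.pair η (num n)) ξ ∈ Name.val U H (eN Ω X Θ) →
          (∃ a ∈ C, ZFSet.pair (num n) (ZFSet.pair ξ a) ∈ Name.val U H (XN Ω X Θ)) ∧
          (∃ a ∈ C, ZFSet.pair (num n) (ZFSet.pair ξ a) ∉ Name.val U H (XN Ω X Θ))) := by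
  refine ((Ev.gfN_char (P := PP Ω X Θ)).and (Ev.XN_char.and (Ev.eN_char.and
    (Ev.lc1.and (Ev.lc2.and (Ev.lc3.and Ev.lc4)))))).mono ?_
  rintro U H ⟨hg, hX, he, h1, h2, h3, h4⟩ K hB A hA hfunA
  have hBase : Base U H := hB.toBase
  obtain ⟨τ, -, hτ, rfl⟩ := hA
  have hAM : Name.val U H τ ∈ MM U H := ⟨τ, mem_univ _, hτ, rfl⟩
  obtain ⟨q₀, hq₀, F, hFU, -, hGood⟩ := h1 K hB τ hτ
  obtain ⟨hgM, hgF, -, hg2, hg3⟩ := hg _ F hFU
  refine ⟨_, hgM, hgF, ?_⟩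
  intro η hη hno
  obtain ⟨ζ, hζ, hζU, rfl⟩ := (mem_val_ordN hBase).1 hη
  obtain ⟨s, rfl⟩ := exists_sO (Θ := Θ) hζ
  have hFs : ∀ i < (PE.κ Ω X Θ).ord, F i ≠ sO s := by
    intro i hi hFi
    obtain ⟨β, hβ, hβU, hFβ⟩ := hg2 _ hζU ⟨i, hi, hFi⟩
    refine hno (Name.val U H (ordN _ β)) ((mem_val_ordN hBase).2 ⟨β, hβ, hβU, rfl⟩) ?_
    rw [hg3]
    exact ⟨β, hβ, hβU, by rw [hFβ]; exact hζU, rfl, by rw [hFβ]⟩
  obtain ⟨q', hq', N, hN⟩ := h2 K hB τ hτ q₀ hq₀ F hGood s hζU hFs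
  refine ⟨N, fun n hn C hC hCt hCov ξ hξ => ?_⟩
  obtain ⟨ξ', hξU, rfl, qe, hqe, heR⟩ := (((he K hB).2 s hζU n).1 ξ).1 hξ
  have hCM : C ∈ MM U H := NF3_snd hAM hC
  obtain ⟨ν, -, hν, rfl⟩ := hCM
  have hnU : ordN (PP Ω X Θ) (n : Ordinal.{0}) ∈ U := hB.nat n
  obtain ⟨r₁, hr₁, hf₁⟩ : ∃ q ∈ H, Name.fmem (oN (ordN _ (n : Ordinal.{0})) ν) τ q := by
    refine (Name.val_mem_iff hB.full.at' (oN_mem hBase hnU hν) hτ).1 ?_
    rw [val_oN hBase hnU hν, val_ordN_nat hBase]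
    exact hC
  -- the key claim
  have key : ∀ b : Bool, ∃ q ∈ H, ∃ ν ∈ U, ∃ a ξ : Ω, ordN _ (oo a) ∈ U ∧ ordN _ (oo ξ) ∈ U ∧
      Name.fmem (oN (ordN _ (n : Ordinal.{0})) ν) τ q ∧ Name.fmem (ordN _ (oo a)) ν q ∧
      q.down.Rt s (n + 1) ξ ∧ q.down.cc (n + 1) (ξ, a) = some b := by
    intro b
    rcases h3 K hB τ hτ s hζU n b with h | ⟨p, hp, hpno⟩
    · exact h
    exfalso
    rcases h4 K hB τ hτ n with ⟨q, hq, α, F', hF'U, hCvr⟩ | ⟨p₂, hp₂, hp₂no⟩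
    · obtain ⟨hl, rfl, hcv⟩ := hCvr
      obtain ⟨hM, hfun, -, hinv, hpair⟩ := hg _ F' hF'U
      have hKn : q.down.pt n = K n := hB.pts.eq hB.filt hq (by omega)
      have hKn1 : q.down.pt (n + 1) = K (n + 1) := hB.pts.eq hB.filt hq hl
      rw [hKn] at hM hfun hinv hpair hcv
      rw [hKn1] at hcv
      refine hCov ⟨_, hM, hfun, fun y hy => ?_⟩
      obtain ⟨β, hβ, hβU, rfl⟩ := (mem_val_ordN hBase).1 (hCt hy)
      obtain ⟨a, rfl⟩ := (exists_oo X Θ).1 (hβ.trans (tO_lt K (n + 1)))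
      have ha : a < PE.T X Θ (K (n + 1)) := oo_lt_iff.1 hβ
      obtain ⟨r₂, hr₂, hf₂⟩ := (Name.val_mem_iff hB.full.at' hβU hν).1 hy
      obtain ⟨r₃, hr₃, h31, h32⟩ := hB.filt.dir r₁ hr₁ r₂ hr₂
      obtain ⟨r₄, -, h43, h4q⟩ := hB.filt.dir r₃ hr₃ q hq
      obtain ⟨i, hi, hFi⟩ := hcv r₄.down h4q a ha
        ⟨ν, Name.fmem_mono hf₁ (h43.trans h31), Name.fmem_mono hf₂ (h43.trans h32)⟩
      obtain ⟨β', hβ', hβ'U, hFβ'⟩ := hinv _ hβU ⟨i, hi, hFi⟩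
      refine ⟨Name.val U H (ordN _ β'), (mem_val_ordN hBase).2 ⟨β', hβ', hβ'U, rfl⟩, ?_⟩
      rw [hpair]
      exact ⟨β', hβ', hβ'U, by rw [hFβ']; exact hβU, rfl, by rw [hFβ']⟩
    · obtain ⟨r, hr, hrlen, -⟩ := hB.exists_len (n + 1)
      obtain ⟨r₅, hr₅, h5q, h5p⟩ := hB.filt.dir q' hq' p hp
      obtain ⟨r₆, hr₆, h65, h62⟩ := hB.filt.dir r₅ hr₅ p₂ hp₂
      obtain ⟨r₇, hr₇, h76, h7r⟩ := hB.filt.dir r₆ hr₆ r hr
      have hlen : n + 1 < r₇.down.len := hrlen.trans_le (Cond.len_le h7r)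
      have h7q' : r₇.down ≤ q'.down := (h76.trans h65).trans h5q
      obtain ⟨q₇, hq₇, a, x, ha, hx, hc⟩ := hN n hn r₇.down h7q' hlen (by
        intro C' hC'
        by_contra hcon
        obtain ⟨F', hF'⟩ := exists_Cvr (τ := τ) hlen hC' hcon
        exact hp₂no r₇ (h76.trans h62) _ F' hF') b
      refine hpno (ULift.up q₇) ?_ a x ha hx hc
      have h7p : r₇ ≤ p := (h76.trans h65).trans h5p
      exact le_trans (show (ULift.up q₇ : PP Ω X Θ) ≤ r₇ from hq₇) h7p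
  have key2 : ∀ b : Bool, ∃ q ∈ H, ∃ a : Ω, ordN _ (oo a) ∈ U ∧
      Name.val U H (ordN _ (oo a)) ∈ Name.val U H ν ∧ n + 1 < q.down.len ∧
      q.down.cc (n + 1) (ξ', a) = some b := by
    intro b
    obtain ⟨q, hq, ν', hν', a, x, haU, hxU, hf, hf', hRt, hcc⟩ := key b
    obtain ⟨r, -, hrq, hre⟩ := hB.filt.dir q hq qe hqe
    have hx : ξ' = x := NF3_eR (r := r.down) hrq hre hRt hcc heR
    subst hx
    have hn' : num n ∈ ZFSet.omega := mem_omega_iff.2 ⟨n, rfl⟩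
    obtain ⟨y, -, hy⟩ := hfunA.2 _ hn'
    have e1 : Name.val U H ν' = y := by
      refine hy _ ?_
      have := (Name.val_mem_iff hB.full.at' (oN_mem hBase hnU hν') hτ).2 ⟨q, hq, hf⟩
      rw [val_oN hBase hnU hν', val_ordN_nat hBase] at this
      exact this
    have e2 : Name.val U H ν = y := hy _ hC
    have h5 := (Name.val_mem_iff hB.full.at' haU hν').2 ⟨q, hq, hf'⟩
    rw [e1, ← e2] at h5
    exact ⟨q, hq, a, haU, h5, NF3_len hcc, hcc⟩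
  constructor
  · obtain ⟨q, hq, a, haU, hm, hlen, hcc⟩ := key2 true
    exact ⟨_, hm, ((hX K hB).2 n ξ' a hξU haU).2 ⟨q, hq, hlen, hcc⟩⟩
  · obtain ⟨q, hq, a, haU, hm, hlen, hcc⟩ := key2 false
    refine ⟨_, hm, fun hin => ?_⟩
    obtain ⟨q₂, hq₂, hlen₂, hcc₂⟩ := ((hX K hB).2 n ξ' a hξU haU).1 hin
    obtain ⟨r, -, hr1, hr2⟩ := hB.filt.dir q hq q₂ hq₂
    have e1 := Cond.cc_sub (q := r.down) hr1 hlen _ _ hcc
    have e2 := Cond.cc_sub (q := r.down) hr2 hlen₂ _ _ hcc₂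
    rw [e1] at e2
    exact absurd e2 (by simp)

end Pool.UL
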