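import Pool.Agent.Lib.MP_9fc97b_un.NDef

/-!
# UL, N-side, row NFd
-/

set_option autoImplicit false
set_option linter.unusedSectionVars false

open Cardinal Set Order

namespace Pool.UL

open Pool.PC Pool.MP_3ade05_lc

variable {Ω : Type} [LinearOrder Ω] [WellFoundedLT Ω] {X Θ : Type} [D : PE Ω X Θ]

/-- `q` forces `a ∈ A_n`, where `τ` is a name for the sequence `A`. -/
def aR (τ : Name (PP Ω X Θ)) (q : Cond Ω X Θ) (n : ℕ) (a : Ω) : Prop :=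
  ∃ ν, Name.fmem (oN (ordN _ (n : Ordinal.{0})) ν) τ (ULift.up q) ∧
    Name.fmem (ordN _ (oo a)) ν (ULift.up q)

lemma aR.mono {τ : Name (PP Ω X Θ)} {q q' : Cond Ω X Θ} {n : ℕ} {a : Ω} (hq : q' ≤ q)
    (h : aR τ q n a) : aR τ q' n a := by
  obtain ⟨ν, h1, h2⟩ := h
  have hq' : (ULift.up q' : PP Ω X Θ) ≤ ULift.up q := hq
  exact ⟨ν, Name.fmem_mono h1 hq', Name.fmem_mono h2 hq'⟩

/-- The conclusion of (LC) for the coordinate `s`, from `N` on. -/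
def Good2 (τ : Name (PP Ω X Θ)) (s : Θ) (N : ℕ) (q' : Cond Ω X Θ) : Prop :=
  ∀ n ≥ N, ∀ q'' ≤ q', n + 1 < q''.len →
    (∀ C : Set Ω, #C ≤ th X Θ (q''.pt n) →
      ∃ q₄ ≤ q'', ∃ a ∉ C, a < PE.T X Θ (q''.pt (n + 1)) ∧ aR τ q₄ n a) →
    ∀ b : Bool, ∃ q₇ ≤ q'', ∃ a ξ, aR τ q₇ n a ∧ q₇.Rt s (n + 1) ξ ∧
      q₇.cc (n + 1) (ξ, a) = some b

/-- (LC) holds for all coordinates outside the range of `F`. -/
def Good1 (τ : Name (PP Ω X Θ)) (F : Ordinal.{0} → Ordinal.{0}) (q : Cond Ω X Θ) : Prop :=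
  ∀ s : Θ, (∀ i < (PE.κ Ω X Θ).ord, F i ≠ sO s) → ∀ q₂ ≤ q, ∃ q' ≤ q₂, ∃ N, Good2 τ s N q'

/-- `F` enumerates on `α = t_n` a ground model set which contains `A_n`. -/
def Cvr (τ : Name (PP Ω X Θ)) (n : ℕ) (q : Cond Ω X Θ) (α : Ordinal.{0})
    (F : Ordinal.{0} → Ordinal.{0}) : Prop :=
  n + 1 < q.len ∧ α = oo (PE.T X Θ (q.pt n)) ∧ ∀ q₄ ≤ q, ∀ a : Ω,
    a < PE.T X Θ (q.pt (n + 1)) → aR τ q₄ n a → ∃ i < α, F i = oo a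

end Pool.UL
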