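import Pool.Agent.Lib.MP_9fc97b_un.NF3
import Pool.Agent.Lib.MP_9fc97b_un.NB1
import Pool.Agent.Lib.MP_9fc97b_un.ND2
import Pool.Agent.Lib.MP_9fc97b_un.ND3
import Pool.Agent.Lib.MP_9fc97b_un.NE3
import Pool.Agent.Lib.MP_ad72f3_pc.ZFg

/-!
# UL, N-side, row NG1
-/

set_option autoImplicit false
set_option linter.unusedSectionVars false

open Cardinal Set Order

namespace Pool.UL

open Pool.PC Pool.MP_3ade05_lc

variable {Ω : Type} [LinearOrder Ω] [WellFoundedLT Ω] {X Θ : Type} [D : PE Ω X Θ]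

/-- Row NG1: the setting of theorem T holds in the generic model. -/
theorem Ev.setting : Ev (P := PP Ω X Θ) (fun U H => ∀ K, GB U H K →
    Setting (MM U H) (Name.val U H (ordN _ (PE.κ Ω X Θ).ord)) (Name.val U H (ordN _ (#Θ).ord))
      (tN X Θ U H K) (Name.val U H (tFN Ω X Θ)) (Name.val U H (XN Ω X Θ))
      (Name.val U H (eN Ω X Θ))) := by
  have e1 := (Ev.zf (P := PP Ω X Θ)).and (Ev.choice (P := PP Ω X Θ))
  have e2 := (Ev.tFN_char (Ω := Ω) (X := X) (Θ := Θ)).and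
    ((Ev.XN_char (Ω := Ω) (X := X) (Θ := Θ)).and (Ev.eN_char (Ω := Ω) (X := X) (Θ := Θ)))
  have e3 := (Ev.SL (Ω := Ω) (X := X) (Θ := Θ)).and (Ev.PK (Ω := Ω) (X := X) (Θ := Θ))
  have e4 := (Ev.ground_sq (P := PP Ω X Θ)).and (Ev.CA (Ω := Ω) (X := X) (Θ := Θ))
  have e5 := (Ev.infCard_κ (Ω := Ω) (X := X) (Θ := Θ)).and
    ((Ev.infCard_big (Ω := Ω) (X := X) (Θ := Θ)).and (Ev.LC (Ω := Ω) (X := X) (Θ := Θ)))
  refine ((e1.and e2).and (e3.and (e4.and e5))).mono ?_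
  rintro U H ⟨⟨⟨hzf, hch⟩, htF, hX, he⟩, ⟨hSL, hPK⟩, ⟨hsq, hCA⟩, hκ, hbig, hLC⟩ K hK
  have hB : Base U H := hK.toBase
  have hκΘ : (2 : Cardinal.{0}) ^ (PE.κ Ω X Θ) < #Θ := D.S_lim _ D.κ_lt
  have htω : Ordinal.omega0 < tO X Θ K 0 := by
    have h1 : ℵ₀ < (tO X Θ K 0).card := by
      unfold tO
      rw [card_oo]
      exact aleph0_lt_th (hK.K_W 0)
    by_contra h2
    rw [not_lt] at h2
    have h3 := Ordinal.card_le_card h2
    rw [Ordinal.card_omega0] at h3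
    exact absurd h1 (not_lt.2 h3)
  have htω' : ∀ n, Ordinal.omega0 < tO X Θ K n := by
    intro n
    induction n with
    | zero => exact htω
    | succ n ih => exact ih.trans (hK.t_lt n)
  have heta : ∀ η ∈ Name.val U H (ordN _ (#Θ).ord), ∃ s : Θ, ordN _ (sO s) ∈ U ∧
      η = Name.val U H (ordN _ (sO s)) := by
    intro η hη
    obtain ⟨ζ, hζ, hζU, rfl⟩ := (mem_val_ordN hB).1 hη
    obtain ⟨s, rfl⟩ := exists_sO hζ
    exact ⟨s, hζU, rfl⟩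
  have hval : ∀ {s : Θ} (_ : ordN (PP Ω X Θ) (sO s) ∈ U) (n : ℕ) (y : ZFSet.{0}),
      ZFSet.pair (ZFSet.pair (Name.val U H (ordN _ (sO s))) (num n)) y ∈
        Name.val U H (eN Ω X Θ) ↔ ∃ ξ : Ω, ordN _ (oo ξ) ∈ U ∧
          y = Name.val U H (ordN _ (oo ξ)) ∧ ∃ q ∈ H, eR s q.down n ξ :=
    fun hs n y => (((he K hK).2 _ hs n).1 y)
  refine ⟨fun x hx y hy => MM_trans hx hy, ⟨hzf, hch⟩, hκ K hK, hbig K hK _ hκΘ hK.Θ_mem, ?_, ?_,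
    ?_, ?_, ?_, (htF K hK).1, (htF K hK).2.1, (htF K hK).2.2, (hX K hK).1, (he K hK).1, ?_, ?_, ?_,
    ?_, hPK K hK, hCA K hK, ?_⟩
  · exact (val_ordN_mem_iff hB hK.κ_mem hK.Θ_mem).2 (ord_lt_ord.2 D.κ_lt)
  · exact fun n => (val_ordN_mem_iff hB (hK.t_mem n) (hK.t_mem (n + 1))).2 (hK.t_lt n)
  · exact fun n => (val_ordN_mem_iff hB (hK.t_mem n) hK.κ_mem).2 (tO_lt K n)
  · rw [← val_ordN_omega hB]
    exact (val_ordN_mem_iff hB hB.omega (hK.t_mem 0)).2 htω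
  · intro x hx
    obtain ⟨γ, hγ, hγU, rfl⟩ := (mem_val_ordN hB).1 hx
    obtain ⟨a, rfl⟩ := (exists_oo X Θ).1 hγ
    obtain ⟨n, hn⟩ := hK.unb a hγU
    refine ⟨n, (val_ordN_mem_iff hB hγU (hK.t_mem n)).2 ?_⟩
    exact oo_lt_iff.2 (hn.trans_le (D.T_ge _ (hK.K_W n)))
  · intro η hη n
    obtain ⟨s, hs, rfl⟩ := heta η hη
    obtain ⟨ξ, hξU, q, hq, hR⟩ := ((he K hK).2 s hs n).2
    refine ⟨Name.val U H (ordN _ (oo ξ)), (hval hs n _).2 ⟨ξ, hξU, rfl, q, hq, hR⟩, ?_⟩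
    intro y hy
    obtain ⟨ξ', hξU', rfl, q', hq', hR'⟩ := (hval hs n y).1 hy
    obtain ⟨r, -, hr1, hr2⟩ := hB.filt.dir q hq q' hq'
    have h1 : eR s r.down n ξ := hR.mono hr1
    have h2 : eR s r.down n ξ' := hR'.mono hr2
    rw [h1.uniq h2]
  · intro η hη n ξ hξ
    obtain ⟨s, hs, rfl⟩ := heta η hη
    obtain ⟨ξ', hξU', rfl, q', hq', hR'⟩ := (hval hs n ξ).1 hξ
    refine (val_ordN_mem_iff hB hξU' (hK.t_mem (n + 1))).2 ?_
    have h1 := hR'.lt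
    rw [Pts.eq hB.filt hK.pts hq' hR'.1] at h1
    exact oo_lt_iff.2 h1
  · exact fun n => ⟨n + 1, hSL K hK n⟩
  · exact fun n => hsq _ (hK.t_mem n) (htω' n).le
  · intro A hA hAf
    obtain ⟨g, hg, hgf, h⟩ := hLC K hK A hA hAf
    exact ⟨g, hg, hgf, h⟩

end Pool.UL
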