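import Pool.Agent.Lib.MP_9fc97b_un.NC1
import Pool.Agent.Lib.MP_9fc97b_un.NE2

/-!
# UL, N-side, row NG2
-/

set_option autoImplicit false
set_option linter.unusedSectionVars false

open Cardinal Set Order

namespace Pool.UL

open Pool.PC Pool.MP_3ade05_lc

variable {Ω : Type} [LinearOrder Ω] [WellFoundedLT Ω] {X Θ : Type} [D : PE Ω X Θ]

/-- Row NG2: `Θ` is singular in the generic model. -/
theorem Ev.singular (hlt : succ (PE.κ Ω X Θ) < #Θ) (f : Ordinal.{0} → Ordinal.{0})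
    (h1 : ∀ α < (succ (PE.κ Ω X Θ)).ord, f α < (#Θ).ord)
    (h2 : ∀ β < (#Θ).ord, ∃ α < (succ (PE.κ Ω X Θ)).ord, β ≤ f α) :
    Ev (P := PP Ω X Θ) (fun U H => ∀ K, GB U H K →
      Singular (MM U H) (Name.val U H (ordN _ (#Θ).ord))) := by
  classical
  have h3 : ∀ β : Ordinal.{0}, ∃ α : Ordinal.{0}, β < (#Θ).ord →
      α < (succ (PE.κ Ω X Θ)).ord ∧ β ≤ f α := by
    intro β
    by_cases hβ : β < (#Θ).ord
    · obtain ⟨α, h4, h5⟩ := h2 β hβ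
      exact ⟨α, fun _ => ⟨h4, h5⟩⟩
    · exact ⟨0, fun h => absurd h hβ⟩
  choose g hg using h3
  refine ((Ev.infCard_big (Ω := Ω) (X := X) (Θ := Θ)).and
    (((Ev.gfN_char (P := PP Ω X Θ)).and (Ev.ord1 (P := PP Ω X Θ) g)).and
      ((Ev.op (P := PP Ω X Θ) (n := 0) (fun _ => gfN (PP Ω X Θ) (succ (PE.κ Ω X Θ)).ord f)).and
      (Ev.op (P := PP Ω X Θ) (n := 0) (fun _ => ordN _ (succ (PE.κ Ω X Θ)).ord))))).mono ?_
  rintro U H ⟨hbig, ⟨hchar, hclos⟩, hgf, hs⟩ K hK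
  have hB : Base U H := hK.toBase
  have hgf' : gfN (PP Ω X Θ) (succ (PE.κ Ω X Θ)).ord f ∈ U := hgf Fin.elim0 (fun i => i.elim0)
  have hs' : ordN (PP Ω X Θ) (succ (PE.κ Ω X Θ)).ord ∈ U := hs Fin.elim0 (fun i => i.elim0)
  obtain ⟨e1, e2, -, -, e3⟩ := hchar _ _ hgf'
  refine ⟨hbig K hK _ (D.S_lim _ D.κ_lt) hK.Θ_mem, Name.val U H (ordN _ (succ (PE.κ Ω X Θ)).ord),
    (val_ordN_mem_iff hB hs' hK.Θ_mem).2 (ord_lt_ord.2 hlt), _, e1, e2, ?_, ?_⟩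
  · intro x hx y hxy
    obtain ⟨β, hβ, hβU, hfU, rfl, rfl⟩ := (e3 x y).1 hxy
    exact (val_ordN_mem_iff hB hfU hK.Θ_mem).2 (h1 β hβ)
  · intro z hz
    obtain ⟨ζ, hζ, hζU, rfl⟩ := (mem_val_ordN hB).1 hz
    obtain ⟨h5, h6⟩ := hg ζ hζ
    have h7 : ordN (PP Ω X Θ) (g ζ) ∈ U := hclos ζ hζU
    obtain ⟨-, -, e4, -, -⟩ := hchar _ _ hgf'
    have h8 := e4 (g ζ) h5 h7
    exact ⟨Name.val U H (ordN _ (g ζ)), (val_ordN_mem_iff hB h7 hs').2 h5,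
      Name.val U H (ordN _ (f (g ζ))), (e3 _ _).2 ⟨g ζ, h5, h7, h8, rfl, rfl⟩,
      (val_ordN_subset_iff hB hζU h8).2 h6⟩

end Pool.UL
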