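import Pool.Agent.Lib.MP_9fc97b_un.NG1
import Pool.Agent.Lib.MP_9fc97b_un.NG2
import Pool.Agent.Lib.MP_9fc97b_ul.HY7
import Pool.Agent.Lib.MP_9fc97b_ul.BB5
import Pool.Agent.Lib.MP_9fc97b_ut.Main

/-!
# UL, N-side, row NG3
-/

set_option autoImplicit false
set_option linter.unusedSectionVars false

open Cardinal Set Order

namespace Pool.UL

open Pool.PC Pool.MP_3ade05_lc

variable {Ω : Type} [LinearOrder Ω] [WellFoundedLT Ω] {X Θ : Type} [D : PE Ω X Θ]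

/-- Row NG3: the forcing notion is not empty. -/
lemma nonempty_cond (Ω : Type) [LinearOrder Ω] [WellFoundedLT Ω] (X Θ : Type) [D : PE Ω X Θ] :
    Nonempty (Cond Ω X Θ) := by
  obtain ⟨x, hx⟩ := (PE.kx_W (Ω := Ω) (X := X) (Θ := Θ)).exists
  have hco : ∀ (Z : Type) (θ : Cardinal.{0}), IsCo θ (fun _ : Z => (none : Option Bool)) := by
    intro Z θ
    have h1 : IsEmpty (pdom (fun _ : Z => (none : Option Bool))) := ⟨fun a => a.2 rfl⟩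
    unfold IsCo
    rw [mk_eq_zero]
    exact zero_le
  refine ⟨⟨D.kx x, [], [fun _ => none], ⟨fun _ => none, fun _ => none, Set.univ,
    fun _ _ => none⟩, ?_, ?_⟩⟩
  · exact ⟨hx, by simp, hco _ _, fun a b h => absurd h (by simp), trivial⟩
  · refine ⟨hco _ _, fun s ρ σ h => absurd h (by simp), fun m' hm' hlt => ?_,
      Filter.univ_mem, fun m' hm' => hco _ _⟩
    have h1 : IsEmpty {s : Θ | ∃ ρ σ, (none : Option (Ω × (ℕ → Option Ω))) = some (ρ, σ) ∧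
        ρ < m'} := ⟨fun a => by
      obtain ⟨ρ, σ, h, -⟩ := a.2
      exact absurd h (by simp)⟩
    rw [mk_eq_zero]
    exact zero_le

/-- The main theorem. -/
theorem main {κ : Cardinal.{0}} (h : Pool.P2.IsSupercompact κ (bb κ)) :
    ∃ V : Set ZFSet.{0}, V.Countable ∧ (∀ x ∈ V, ∀ y ∈ x, y ∈ V) ∧ ZFCModel V ∧
      ∃ lam u : ZFSet.{0}, StrongLimit V lam ∧ Singular V lam ∧ UNumIs V lam u ∧
        PowIs V lam u ∧ Singular V u := by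
  obtain ⟨D, hκ⟩ := Hyp.exists_PE h
  have hinf : ℵ₀ ≤ κ := by
    rw [← hκ]
    exact D.κ_inacc.aleph0_lt.le
  obtain ⟨hb1, f, hb2, hb3⟩ := bb_cofinal hinf
  have hmk : #(Hyp.S κ) = bb κ := mk_ord_toType _
  have e1 := Ev.zf (P := PP (Hyp.O κ) (Hyp.X κ) (Hyp.S κ))
  have e2 := Ev.choice (P := PP (Hyp.O κ) (Hyp.X κ) (Hyp.S κ))
  have e3 := Ev.gb (Ω := Hyp.O κ) (X := Hyp.X κ) (Θ := Hyp.S κ)
  have e4 := Ev.setting (Ω := Hyp.O κ) (X := Hyp.X κ) (Θ := Hyp.S κ)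
  have e5 := Ev.singular (Ω := Hyp.O κ) (X := Hyp.X κ) (Θ := Hyp.S κ)
    (by rw [hκ, hmk]; exact hb1) f (by rw [hκ, hmk]; exact hb2) (by rw [hκ, hmk]; exact hb3)
  obtain ⟨p₀⟩ := nonempty_cond (Hyp.O κ) (Hyp.X κ) (Hyp.S κ)
  obtain ⟨U, H, hU, hH, -, ⟨⟨⟨⟨q1, q2⟩, K, hK⟩, q4⟩, q5⟩⟩ :=
    ((((e1.and e2).and e3).and e4).and e5).exists_hull (ULift.up p₀)
  obtain ⟨r1, r2, r3, r4⟩ := (q4 K hK).main
  exact ⟨MM U H, MM_countable hU, fun x hx y hy => MM_trans hx hy, ⟨q1, q2⟩, _, _, r1, r2, r3, r4,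
    q5 K hK⟩

end Pool.UL
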