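import Pool.Agent.Lib.MP_ad72f3_pc.Nm
import Pool.Agent.Lib.MP_9fc97b_ul.FN
import Pool.Agent.Lib.MP_9fc97b_ut.Setting

/-!
# UL, N-side: the generic points
-/

set_option autoImplicit false
set_option linter.unusedSectionVars false

open Cardinal Set Order

namespace Pool.UL

open Pool.PC Pool.MP_3ade05_lc

variable (Ω : Type) [LinearOrder Ω] [WellFoundedLT Ω] (X Θ : Type) [D : PE Ω X Θ]

/-- The forcing notion, lifted. -/
abbrev PP : Type 1 := ULift.{1} (Cond Ω X Θ)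

instance : Small.{0} (PP Ω X Θ) := inferInstanceAs (Small.{0} (ULift.{1} (Cond Ω X Θ)))

variable {Ω}

/-- The ordinal (in the sense of Lean) given by an element of `Ω`. -/
noncomputable def oo (a : Ω) : Ordinal.{0} := Ordinal.typein (α := Ω) (· < ·) a

lemma card_oo (a : Ω) : (oo a).card = crd a := by
  exact (Ordinal.card_typein (r := ((· < ·) : Ω → Ω → Prop)) a).symm

lemma oo_lt_iff {a b : Ω} : oo a < oo b ↔ a < b := by
  unfold oo
  exact Ordinal.typein_lt_typein (r := ((· < ·) : Ω → Ω → Prop))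

lemma oo_injective : Function.Injective (oo : Ω → Ordinal.{0}) := by
  intro a b h
  exact Ordinal.typein_injective ((· < ·) : Ω → Ω → Prop) h

variable (Ω) in
lemma type_eq : Ordinal.type ((· < ·) : Ω → Ω → Prop) = (PE.κ Ω X Θ).ord := by
  have hcard : (Ordinal.type ((· < ·) : Ω → Ω → Prop)).card = D.κ := by
    rw [Ordinal.card_type, D.mk_Ω]
  apply le_antisymm
  · by_contra h
    rw [not_le] at h
    obtain ⟨a, ha⟩ := Ordinal.typein_surj ((· < ·) : Ω → Ω → Prop) h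
    have h1 : crd a = D.κ := by
      have h2 := card_oo a
      unfold oo at h2
      rw [← h2, ha, card_ord]
    exact (D.crd_lt a).ne h1
  · rw [ord_le, hcard]

/-- The order type of `Ω` is `κ`. -/
lemma exists_oo {α : Ordinal.{0}} : α < (PE.κ Ω X Θ).ord ↔ ∃ a : Ω, oo a = α := by
  rw [← type_eq Ω X Θ]
  constructor
  · intro h
    exact Ordinal.typein_surj ((· < ·) : Ω → Ω → Prop) h
  · rintro ⟨a, rfl⟩
    exact Ordinal.typein_lt_type ((· < ·) : Ω → Ω → Prop) a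

lemma oo_lt_κ (a : Ω) : oo a < (PE.κ Ω X Θ).ord := (exists_oo X Θ).2 ⟨a, rfl⟩

lemma oo_lt_ord {a : Ω} {c : Cardinal.{0}} : oo a < c.ord ↔ crd a < c := by
  rw [lt_ord, card_oo]

variable {X Θ}

/-- `K n` is the `n`-th generic point. -/
def Pts (H : Set (PP Ω X Θ)) (K : ℕ → Ω) : Prop :=
  ∀ n, ∃ p ∈ H, n < p.down.len ∧ p.down.pt n = K n

lemma Pts.eq {H : Set (PP Ω X Θ)} (hH : IsFilt H) {K : ℕ → Ω} (hK : Pts H K) {p : PP Ω X Θ}
    (hp : p ∈ H) {n : ℕ} (hn : n < p.down.len) : p.down.pt n = K n := by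
  obtain ⟨q, hq, hnq, hqK⟩ := hK n
  obtain ⟨r, _, hrp, hrq⟩ := hH.dir p hp q hq
  have h1 : r.down.pt n = p.down.pt n := Cond.pt_of_le hrp hn
  have h2 : r.down.pt n = q.down.pt n := Cond.pt_of_le hrq hnq
  rw [← h1, h2, hqK]

variable (X Θ) in
/-- The ordinal `t_n` of the generic model. -/
noncomputable def tO (K : ℕ → Ω) (n : ℕ) : Ordinal.{0} := oo (PE.T X Θ (K n))

/-- Basic properties of the hull. -/
structure GB (U : Set (Name (PP Ω X Θ))) (H : Set (PP Ω X Θ)) (K : ℕ → Ω) : Prop extends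
    Base U H where
  pts : Pts H K
  unb : ∀ a : Ω, ordN _ (oo a) ∈ U → ∃ n, a < K n
  t_mem : ∀ n, ordN _ (tO X Θ K n) ∈ U
  κ_mem : ordN _ (PE.κ Ω X Θ).ord ∈ U
  Θ_mem : ordN _ (#Θ).ord ∈ U
  parts : ∀ σ τ : Name (PP Ω X Θ), oN σ τ ∈ U → σ ∈ U ∧ τ ∈ U

/-- Row NPt. -/
theorem Ev.gb : Ev (P := PP Ω X Θ) (fun U H => ∃ K, GB U H K) := by
  have h1 := Ev.base (P := PP Ω X Θ)
  have h2 : Ev (P := PP Ω X Θ) (fun U H => ∀ n : ℕ, ∀ v : Fin 0 → Name (PP Ω X Θ),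
      (∀ i, v i ∈ U) →
      (∃ q ∈ H, n < q.down.len) ∨ (∃ p ∈ H, ∀ q ≤ p, ¬ n < q.down.len)) :=
    Ev.all fun n => Ev.gen' (fun (_ : Fin 0 → Name (PP Ω X Θ)) (q : PP Ω X Θ) => n < q.down.len)
  have h3 : Ev (P := PP Ω X Θ) (fun U H => ∀ v : Fin 1 → Name (PP Ω X Θ), (∀ i, v i ∈ U) →
      (∃ q ∈ H, ∃ a : Ω, v 0 = ordN _ (oo a) ∧ a < q.down.m) ∨
      (∃ p ∈ H, ∀ q ≤ p, ¬ ∃ a : Ω, v 0 = ordN _ (oo a) ∧ a < q.down.m)) :=
    Ev.gen' (fun (v : Fin 1 → Name (PP Ω X Θ)) (q : PP Ω X Θ) =>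
      ∃ a : Ω, v 0 = ordN _ (oo a) ∧ a < q.down.m)
  have h4 : Ev (P := PP Ω X Θ) (fun U H => ∀ j : ℕ, (∃ q ∈ H, ∃ ξ, ordN (PP Ω X Θ) ξ ∈ U ∧
      (j < q.down.len ∧ ξ = oo (PE.T X Θ (q.down.pt j)))) ∨
      (∃ p ∈ H, ∀ q ≤ p, ∀ ξ, ¬ (j < q.down.len ∧ ξ = oo (PE.T X Θ (q.down.pt j))))) :=
    Ev.all fun j => Ev.ogen0 (fun (q : PP Ω X Θ) (ξ : Ordinal.{0}) =>
      j < q.down.len ∧ ξ = oo (PE.T X Θ (q.down.pt j)))
  have h5 : ∀ ξ : Ordinal.{0}, Ev (P := PP Ω X Θ) (fun U _ => ∀ v : Fin 0 → Name (PP Ω X Θ),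
      (∀ i, v i ∈ U) → ordN (PP Ω X Θ) ξ ∈ U) := fun ξ => Ev.op (fun _ => ordN (PP Ω X Θ) ξ)
  refine (h1.and (h2.and (h3.and (h4.and ((h5 (PE.κ Ω X Θ).ord).and
    ((h5 (#Θ).ord).and (Ev.parts (P := PP Ω X Θ)))))))).mono ?_
  rintro U H ⟨hB, hlen, hunb, halc, hκ, hκs, hparts⟩
  have hF := hB.filt
  have hlen' : ∀ n : ℕ, ∃ p ∈ H, n < p.down.len := by
    intro n
    rcases hlen n Fin.elim0 (fun i => i.elim0) with h | ⟨p, hp, h⟩
    · exact h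
    · exfalso
      obtain ⟨q, hq, hqn, -⟩ := Cond.exists_len p.down (n + 1) p.down.m
      exact h (ULift.up q) hq hqn
  choose P hPH hPlen using hlen'
  have hpts : Pts H (fun n => (P n).down.pt n) := fun n => ⟨P n, hPH n, hPlen n, rfl⟩
  refine ⟨fun n => (P n).down.pt n, hB, hpts, ?_, ?_, hκ Fin.elim0 (fun i => i.elim0),
    hκs Fin.elim0 (fun i => i.elim0), hparts⟩
  · intro a ha
    rcases hunb (fun _ => ordN _ (oo a)) (fun _ => ha) with ⟨q, hq, b, hb, hbq⟩ | ⟨p, hp, h⟩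
    · have hab : a = b := oo_injective (ordN_injective hb)
      refine ⟨q.down.len - 1, ?_⟩
      have hl : q.down.len - 1 < q.down.len := by
        have : 0 < q.down.len := Nat.succ_pos _
        omega
      rw [← Pts.eq hF hpts hq hl, Cond.pt_last, hab]
      exact hbq
    · exfalso
      obtain ⟨q, hq, -, hqa⟩ := Cond.exists_len p.down 0 a
      exact h (ULift.up q) hq ⟨a, rfl, hqa⟩
  · intro j
    rcases halc j with ⟨q, hq, ξ, hξ, hk, rfl⟩ | ⟨p, hp, h⟩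
    · have e : q.down.pt j = (P j).down.pt j := Pts.eq hF hpts hq hk
      rw [e] at hξ
      exact hξ
    · exfalso
      obtain ⟨q, hq, hqn, -⟩ := Cond.exists_len p.down (j + 1) p.down.m
      exact h (ULift.up q) hq _ ⟨hqn, rfl⟩

section
variable {U : Set (Name (PP Ω X Θ))} {H : Set (PP Ω X Θ)} {K : ℕ → Ω}

variable (X Θ) in
/-- The set `t_n` of the generic model. -/
noncomputable abbrev tN (U : Set (Name (PP Ω X Θ))) (H : Set (PP Ω X Θ)) (K : ℕ → Ω) (n : ℕ) :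
    ZFSet.{0} := Name.val U H (ordN _ (tO X Θ K n))

lemma GB.K_W (hB : GB U H K) (n : ℕ) : K n ∈ PE.W X Θ := by
  obtain ⟨p, hp, hn, hpn⟩ := hB.pts n
  rw [← hpn]
  exact p.down.pt_mem_W hn

lemma GB.K_lt (hB : GB U H K) {k l : ℕ} (hkl : k < l) : K k < K l := by
  obtain ⟨p, hp, hn, hpn⟩ := hB.pts l
  have e5 := hB.pts.eq hB.filt hp (n := k) (hkl.trans hn)
  rw [← hpn, ← e5]
  exact p.down.pt_lt_pt hkl hn

lemma GB.t_lt (hB : GB U H K) (n : ℕ) : tO X Θ K n < tO X Θ K (n + 1) := by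
  have h1 : K n < K (n + 1) := hB.K_lt (Nat.lt_succ_self n)
  have h2 := D.W_T _ (hB.K_W (n + 1)) _ h1
  exact oo_lt_iff.2 (h2.trans_le (D.T_ge _ (hB.K_W (n + 1))))

lemma tO_lt (K : ℕ → Ω) (n : ℕ) : tO X Θ K n < (PE.κ Ω X Θ).ord := oo_lt_κ X Θ _

/-- There is an element of `H` with more than `n` points. -/
lemma GB.exists_len (hB : GB U H K) (n : ℕ) : ∃ q ∈ H, n < q.down.len ∧ ∀ k ≤ n, q.down.pt k = K k := by
  obtain ⟨p, hp, hn, hpn⟩ := hB.pts n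
  exact ⟨p, hp, hn, fun k hk => hB.pts.eq hB.filt hp (lt_of_le_of_lt hk hn)⟩

end

end Pool.UL
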